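import Pool.Agent.Y126.BP.Count

/-!
# The number of Jordan blocks and the weights of Frobenius
-/

set_option autoImplicit false
set_option linter.unusedSectionVars false

namespace Pool.Agent.Y126.BP

open Module Module.End Polynomial

section star

variable {E : Type*} [Field E] [IsAlgClosed E] [CharZero E] {ι : E →+* ℂ} {p : ℕ} {w : ℤ}
variable {X : Type*} [AddCommGroup X] [Module E X] [FiniteDimensional E X] {Φ N : End E X}

theorem gen_of_inj {Y : Type*} [AddCommGroup Y] [Module E Y] {Φ' : End E Y} (i : Y →ₗ[E] X)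
    (hi : Function.Injective i) (hΦ : ∀ y, i (Φ' y) = Φ (i y)) {β : E} {y : Y}
    (hy : i y ∈ Φ.maxGenEigenspace β) : y ∈ Φ'.maxGenEigenspace β := by
  rw [mem_maxGenEigenspace] at hy ⊢
  obtain ⟨k, hk⟩ := hy
  refine ⟨k, hi ?_⟩
  have h1 : ∀ x, (Φ - β • (1 : End E X)) (i x) = (1 : E) • i ((Φ' - β • (1 : End E Y)) x) := by
    intro x
    rw [LinearMap.sub_apply, LinearMap.sub_apply, ← hΦ, LinearMap.smul_apply,
      LinearMap.smul_apply, Module.End.one_apply, Module.End.one_apply, map_sub, map_smul, one_smul]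
  have h2 := pow_semi h1 k y
  rw [hk, one_pow, one_smul] at h2
  rw [← h2, map_zero]

theorem gen_map {Y : Type*} [AddCommGroup Y] [Module E Y] {Φ' : End E Y} (i : Y →ₗ[E] X)
    (hΦ : ∀ y, i (Φ' y) = Φ (i y)) {β : E} {y : Y}
    (hy : y ∈ Φ'.maxGenEigenspace β) : i y ∈ Φ.maxGenEigenspace β := by
  have h1 := mem_gen (π := i) (A := Φ') (B := Φ) (c := 1) (fun y => by rw [one_smul, hΦ]) hy
  rwa [one_mul] at h1

theorem gen_le {Y : Type*} [AddCommGroup Y] [Module E Y] [FiniteDimensional E Y] {Φ' : End E Y}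
    (i : Y →ₗ[E] X)
    (hi : Function.Injective i) (hΦ : ∀ y, i (Φ' y) = Φ (i y)) (β : E) :
    finrank E (Φ'.maxGenEigenspace β) ≤ finrank E (Φ.maxGenEigenspace β) := by
  have h1 : ∀ y ∈ Φ'.maxGenEigenspace β, i y ∈ Φ.maxGenEigenspace β := fun y hy => gen_map i hΦ hy
  refine LinearMap.finrank_le_finrank_of_injective (f := i.restrict h1) ?_
  intro x y hxy
  exact Subtype.ext (hi (congrArg Subtype.val hxy))

/-- the kernel of `N` in the image of `N ^ j` -/
def AA (N : End E X) (j : ℕ) : Submodule E X := LinearMap.ker N ⊓ LinearMap.range (N ^ j)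

theorem dim_AA (j : ℕ) : finrank E (AA N j) + finrank E (LinearMap.range (N ^ (j + 1))) =
    finrank E (LinearMap.range (N ^ j)) := by
  have h1 := LinearMap.finrank_range_add_finrank_ker (N.domRestrict (LinearMap.range (N ^ j)))
  have h2 : LinearMap.range (N.domRestrict (LinearMap.range (N ^ j))) =
      LinearMap.range (N ^ (j + 1)) := by
    rw [LinearMap.range_domRestrict, pow_succ', Module.End.mul_eq_comp, LinearMap.range_comp]
  have h3 : finrank E (LinearMap.ker (N.domRestrict (LinearMap.range (N ^ j)))) =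
      finrank E (AA N j) := by
    rw [← Submodule.finrank_map_subtype_eq, LinearMap.ker_domRestrict, Submodule.map_comap_subtype,
      AA, inf_comm]
  rw [h2, h3] at h1
  omega

theorem AA_stable (hp : (p : E) ≠ 0) (h : N * Φ = (p : E) • (Φ * N)) (j : ℕ) :
    ∀ x ∈ AA N j, Φ x ∈ AA N j := by
  rintro x ⟨hx, y, rfl⟩
  refine ⟨?_, ?_⟩
  · have h1 := nil_pow h 1 ((N ^ j) y)
    rw [pow_one N] at h1
    have hx' : N ((N ^ j) y) = 0 := hx
    change N (Φ ((N ^ j) y)) = 0
    rw [h1, hx', map_zero, smul_zero]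
  · rw [nil_semi hp h]
    exact ⟨((p : E) ^ j)⁻¹ • Φ y, by rw [map_smul]⟩

theorem Star.blocks (hp : 1 < p) (hs : Star ι p w Φ N) (h : N * Φ = (p : E) • (Φ * N))
    (hb : Bal ι p w Φ) (j : ℕ) :
    cnt ι p (ev Φ) (w + j) + 2 * finrank E (LinearMap.range (N ^ (j + 1))) ≤
      cnt ι p (ev Φ) (w + j + 2) + finrank E (LinearMap.range (N ^ j)) +
        finrank E (LinearMap.range (N ^ (j + 2))) := by
  classical
  have hp0 : (p : E) ≠ 0 := by exact_mod_cast (by omega : p ≠ 0)
  set ΦA : ∀ i, End E (AA N i) := fun i => Φ.restrict (AA_stable hp0 h i) with hΦA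
  have hc : ∀ i, ∀ y : AA N i, (AA N i).subtype (ΦA i y) = Φ ((AA N i).subtype y) := by
    intro i y
    rfl
  have hle : AA N (j + 1) ≤ AA N j := by
    rintro x ⟨hx, y, rfl⟩
    refine ⟨hx, N y, ?_⟩
    rw [pow_succ, Module.End.mul_apply]
  -- (a)
  have ha : ∀ β : E, ‖ι β‖ ^ 2 = (p : ℝ) ^ (w - j) → finrank E (Φ.maxGenEigenspace β) ≤
      finrank E (Φ.maxGenEigenspace (((p : E) ^ 1)⁻¹ * β)) +
        finrank E ((ΦA j).maxGenEigenspace β) := by
    intro β hβ
    have h1 : ∀ x ∈ Φ.maxGenEigenspace β, (N ^ 1) x ∈ Φ.maxGenEigenspace (((p : E) ^ 1)⁻¹ * β) :=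
      fun x hx => mem_nil hp0 h 1 hx
    have h2 := LinearMap.finrank_range_add_finrank_ker ((N ^ 1).restrict h1)
    have h3 := Submodule.finrank_le (LinearMap.range ((N ^ 1).restrict h1))
    have h4 : ∀ x : LinearMap.ker ((N ^ 1).restrict h1), ((x : Φ.maxGenEigenspace β) : X) ∈ AA N j := by
      intro x
      have h5 : N ((x : Φ.maxGenEigenspace β) : X) = 0 := by
        have h6 : ∀ z : X, (N ^ 1) z = 0 → N z = 0 := fun z hz => by rwa [pow_one N] at hz
        exact h6 _ (congrArg Subtype.val (LinearMap.mem_ker.1 x.2))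
      refine ⟨h5, ?_⟩
      have h6 : ‖ι ((p : E) ^ j * β)‖ ^ 2 = (p : ℝ) ^ (w + j) := by
        have h7 := wt_mul hp j hβ
        rwa [show w - j + 2 * j = w + j by ring] at h7
      have h7 : ((x : Φ.maxGenEigenspace β) : X) ∈
          Φ.maxGenEigenspace (((p : E) ^ j)⁻¹ * ((p : E) ^ j * β)) := by
        rw [inv_mul_cancel_left₀ (pow_ne_zero _ hp0)]
        exact (x : Φ.maxGenEigenspace β).2
      obtain ⟨z, -, hz⟩ := hs.surj hp h hb h6 h7
      exact ⟨z, hz⟩
    have h5 : ∀ x : LinearMap.ker ((N ^ 1).restrict h1),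
        (⟨((x : Φ.maxGenEigenspace β) : X), h4 x⟩ : AA N j) ∈ (ΦA j).maxGenEigenspace β :=
      fun x => gen_of_inj (AA N j).subtype (Submodule.subtype_injective _) (hc j)
        (x : Φ.maxGenEigenspace β).2
    have h6 : finrank E (LinearMap.ker ((N ^ 1).restrict h1)) ≤
        finrank E ((ΦA j).maxGenEigenspace β) := by
      let g : LinearMap.ker ((N ^ 1).restrict h1) →ₗ[E] (ΦA j).maxGenEigenspace β :=
        { toFun := fun x => ⟨⟨((x : Φ.maxGenEigenspace β) : X), h4 x⟩, h5 x⟩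
          map_add' := fun x y => rfl
          map_smul' := fun c x => rfl }
      refine LinearMap.finrank_le_finrank_of_injective (f := g) ?_
      intro x y hxy
      have h7 := congrArg (fun z => ((z : (ΦA j).maxGenEigenspace β) : AA N j)) hxy
      have h8 := congrArg (fun z => ((z : AA N j) : X)) h7
      exact Subtype.ext (Subtype.ext h8)
    omega
  -- (b)
  have hb0 : ∀ β : E, ‖ι β‖ ^ 2 = (p : ℝ) ^ (w - j) →
      finrank E ((ΦA (j + 1)).maxGenEigenspace β) = 0 := by
    intro β hβ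
    rw [Submodule.finrank_eq_zero, Submodule.eq_bot_iff]
    intro x hx
    have h1 := gen_map (AA N (j + 1)).subtype (hc (j + 1)) hx
    obtain ⟨h2, y, hy⟩ := x.2
    rw [Submodule.subtype_apply, ← hy] at h1
    obtain ⟨y', hy', hy'2⟩ := lift_nil hp0 h (j + 1) h1
    have h3 : ‖ι ((p : E) ^ (j + 1) * β)‖ ^ 2 = (p : ℝ) ^ (w + (j + 2 : ℕ)) := by
      have h4 := wt_mul hp (j + 1) hβ
      rw [h4]
      congr 1
      push_cast
      ring
    have h4 : (N ^ (j + 2)) y' = 0 := by
      rw [show j + 2 = (j + 1) + 1 by ring, pow_succ', Module.End.mul_apply, hy'2, hy]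
      exact h2
    have h5 := hs.inj hp h h3 le_rfl hy' h4
    apply Subtype.ext
    rw [Submodule.coe_zero, ← hy, ← hy'2, h5, map_zero]
  -- (c)
  have hcc : ∀ β : E, finrank E ((ΦA (j + 1)).maxGenEigenspace β) ≤
      finrank E ((ΦA j).maxGenEigenspace β) := by
    intro β
    exact gen_le (Submodule.inclusion hle) (Submodule.inclusion_injective hle) (fun y => rfl) β
  -- multisets
  set f : E → E := fun α => (p : E) * α with hf
  have hfi : Function.Injective f := mul_right_injective₀ hp0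
  have hle2 : ((ev Φ).filter fun α => ‖ι α‖ ^ 2 = (p : ℝ) ^ (w - j)) + ev (ΦA (j + 1)) ≤
      ((ev Φ).filter fun α => ‖ι α‖ ^ 2 = (p : ℝ) ^ (w - j - 2)).map f + ev (ΦA j) := by
    rw [Multiset.le_iff_count]
    intro β
    have hβf : f (((p : E) ^ 1)⁻¹ * β) = β := by
      rw [hf]
      simp only [pow_one]
      rw [mul_inv_cancel_left₀ hp0]
    rw [Multiset.count_add, Multiset.count_add, count_ev, count_ev]
    by_cases hβ : ‖ι β‖ ^ 2 = (p : ℝ) ^ (w - j)
    · have h2 : ‖ι (((p : E) ^ 1)⁻¹ * β)‖ ^ 2 = (p : ℝ) ^ (w - j - 2) := by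
        have h3 := wt_div hp 1 hβ
        rw [h3]
        congr 1
      have h3 : Multiset.count β (((ev Φ).filter fun α => ‖ι α‖ ^ 2 =
          (p : ℝ) ^ (w - j - 2)).map f) = finrank E (Φ.maxGenEigenspace (((p : E) ^ 1)⁻¹ * β)) := by
        nth_rewrite 1 [← hβf]
        rw [Multiset.count_map_eq_count' f _ hfi, cfp h2, count_ev]
      rw [h3, cfp hβ, count_ev, hb0 β hβ, add_zero]
      exact ha β hβ
    · rw [cfn hβ, zero_add]
      exact (hcc β).trans (Nat.le_add_left _ _)
  have h1 := Multiset.card_le_card hle2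
  rw [Multiset.card_add, Multiset.card_add, Multiset.card_map, card_ev, card_ev] at h1
  have h2 := dim_AA (N := N) j
  have h3 := dim_AA (N := N) (j + 1)
  have h4 := hb j
  have h5 := hb (j + 2)
  rw [show w + ((j : ℤ) + 2) = w + j + 2 by ring, show w - ((j : ℤ) + 2) = w - j - 2 by ring] at h5
  have h6 : cnt ι p (ev Φ) (w - j) + finrank E (AA N (j + 1)) ≤
      cnt ι p (ev Φ) (w - j - 2) + finrank E (AA N j) := h1
  rw [show j + 1 + 1 = j + 2 by ring] at h3
  omega

end star

end Pool.Agent.Y126.BP
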