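import Pool.Agent.Y126.BP.Lin

/-!
# Weights of Frobenius and Jordan blocks of the monodromy
-/

set_option autoImplicit false
set_option linter.unusedSectionVars false

namespace Pool.Agent.Y126.BP

open Module Module.End Polynomial

section int

/-- a multiset of integers with at least as many negative as positive members -/
theorem sum_nonpos {M : Multiset ℤ} (h : ∀ a : ℕ, M.count (a : ℤ) ≤ M.count (-(a : ℤ))) :
    M.sum ≤ 0 ∧ (M.sum = 0 → ∀ a : ℤ, M.count a = M.count (-a)) := by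
  classical
  set s : Finset ℤ := M.toFinset ∪ M.toFinset.map (Equiv.neg ℤ).toEmbedding with hs
  have hneg : ∀ a, a ∈ s ↔ -a ∈ s := by
    intro a
    simp only [hs, Finset.mem_union, Finset.mem_map_equiv, Equiv.neg_symm, Equiv.neg_apply, neg_neg]
    tauto
  have hnot : ∀ a, a ∉ s → M.count a = 0 := by
    intro a ha
    rw [Multiset.count_eq_zero]
    intro h1
    exact ha (Finset.mem_union_left _ (Multiset.mem_toFinset.2 h1))
  have h1 : M.sum = ∑ a ∈ s, (M.count a : ℤ) * a := by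
    rw [Finset.sum_multiset_count]
    rw [Finset.sum_subset (Finset.subset_union_left (s₂ := M.toFinset.map
      (Equiv.neg ℤ).toEmbedding))]
    · refine Finset.sum_congr rfl fun a _ => ?_
      rw [nsmul_eq_mul]
    · intro a _ ha
      rw [Multiset.mem_toFinset] at ha
      rw [Multiset.count_eq_zero_of_notMem ha, zero_nsmul]
  have h2 : M.sum = ∑ a ∈ s, -((M.count (-a) : ℤ) * a) := by
    rw [h1]
    refine Finset.sum_bij' (fun a _ => -a) (fun a _ => -a) (fun a ha => (hneg a).1 ha)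
      (fun a ha => (hneg a).1 ha) (fun a _ => neg_neg a) (fun a _ => neg_neg a) fun a _ => ?_
    rw [neg_neg]
    ring
  have h3 : 2 * M.sum = ∑ a ∈ s, ((M.count a : ℤ) - M.count (-a)) * a := by
    rw [two_mul]
    nth_rewrite 1 [h1]
    rw [h2, ← Finset.sum_add_distrib]
    refine Finset.sum_congr rfl fun a _ => ?_
    ring
  have hterm : ∀ a : ℤ, ((M.count a : ℤ) - M.count (-a)) * a ≤ 0 := by
    intro a
    rcases le_total 0 a with ha | ha
    · obtain ⟨n, rfl⟩ := Int.eq_ofNat_of_zero_le ha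
      have h4 := h n
      exact mul_nonpos_of_nonpos_of_nonneg (by omega) ha
    · obtain ⟨n, hn⟩ := Int.eq_ofNat_of_zero_le (neg_nonneg.2 ha)
      have h4 := h n
      rw [← hn, neg_neg] at h4
      exact mul_nonpos_of_nonneg_of_nonpos (by omega) ha
  have h4 : 2 * M.sum ≤ 0 := by
    rw [h3]
    exact Finset.sum_nonpos fun a _ => hterm a
  refine ⟨by omega, fun h0 a => ?_⟩
  rcases eq_or_ne a 0 with rfl | ha0
  · rw [neg_zero]
  by_cases has : a ∈ s
  · have h5 : ∑ a ∈ s, ((M.count a : ℤ) - M.count (-a)) * a = 0 := by rw [← h3, h0, mul_zero]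
    rw [Finset.sum_eq_zero_iff_of_nonpos fun a _ => hterm a] at h5
    have h6 := h5 a has
    rcases mul_eq_zero.1 h6 with h7 | h7
    · omega
    · exact absurd h7 ha0
  · rw [hnot a has, hnot (-a) fun h5 => has ((hneg a).2 h5)]

end int

section wt

variable {E : Type*} [Field E] {ι : E →+* ℂ} {p : ℕ}

theorem wt_unique (hp : 1 < p) {x : ℝ} {a b : ℤ} (ha : x = (p : ℝ) ^ a) (hb : x = (p : ℝ) ^ b) :
    a = b := by
  have h1 : (1 : ℝ) < p := by exact_mod_cast hp
  exact zpow_right_injective₀ (by linarith) h1.ne' (ha.symm.trans hb)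

theorem wt_mul (hp : 1 < p) (k : ℕ) {α : E} {a : ℤ} (h : ‖ι α‖ ^ 2 = (p : ℝ) ^ a) :
    ‖ι ((p : E) ^ k * α)‖ ^ 2 = (p : ℝ) ^ (a + 2 * k) := by
  have h1 : (p : ℝ) ≠ 0 := by exact_mod_cast (by omega : p ≠ 0)
  rw [map_mul, map_pow, map_natCast, norm_mul, mul_pow, h, norm_pow, Complex.norm_natCast,
    zpow_add₀ h1, mul_comm, ← pow_mul, mul_comm k 2]
  norm_cast

theorem wt_div (hp : 1 < p) (k : ℕ) {α : E} {a : ℤ} (h : ‖ι α‖ ^ 2 = (p : ℝ) ^ a) :
    ‖ι (((p : E) ^ k)⁻¹ * α)‖ ^ 2 = (p : ℝ) ^ (a - 2 * k) := by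
  have h1 : (p : ℝ) ≠ 0 := by exact_mod_cast (by omega : p ≠ 0)
  rw [map_mul, map_inv₀, map_pow, map_natCast, norm_mul, mul_pow, h, norm_inv, norm_pow,
    Complex.norm_natCast, zpow_sub₀ h1, mul_comm, div_eq_mul_inv, inv_pow, ← pow_mul, mul_comm k 2]
  norm_cast

open scoped Classical in
theorem cfp {R : Multiset E} {a : ℤ} {α : E} (h : ‖ι α‖ ^ 2 = (p : ℝ) ^ a) :
    (R.filter fun α => ‖ι α‖ ^ 2 = (p : ℝ) ^ a).count α = R.count α :=
  Multiset.count_filter_of_pos (p := fun α => ‖ι α‖ ^ 2 = (p : ℝ) ^ a) h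

open scoped Classical in
theorem cfn {R : Multiset E} {a : ℤ} {α : E} (h : ¬ ‖ι α‖ ^ 2 = (p : ℝ) ^ a) :
    (R.filter fun α => ‖ι α‖ ^ 2 = (p : ℝ) ^ a).count α = 0 :=
  Multiset.count_filter_of_neg (p := fun α => ‖ι α‖ ^ 2 = (p : ℝ) ^ a) h

end wt

section star

variable {E : Type*} [Field E] [IsAlgClosed E] [CharZero E] {ι : E →+* ℂ} {p : ℕ} {w : ℤ}

/-- The number of eigenvalues of the weights `w + a` and `w - a` is the same. -/
def Bal {X : Type*} [AddCommGroup X] [Module E X] [FiniteDimensional E X] (ι : E →+* ℂ) (p : ℕ)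
    (w : ℤ) (Φ : End E X) : Prop := ∀ a : ℤ, cnt ι p (ev Φ) (w + a) = cnt ι p (ev Φ) (w - a)

variable {X : Type*} [AddCommGroup X] [Module E X] [FiniteDimensional E X] {Φ N : End E X}

theorem exists_eigen {α : E} (hα : α ∈ ev Φ) : ∃ x, x ≠ 0 ∧ Φ x = α • x := by
  have h1 : Φ.HasEigenvalue α := by
    rw [Module.End.hasEigenvalue_iff_isRoot_charpoly]
    exact (mem_roots'.1 hα).2
  obtain ⟨x, hx⟩ := h1.exists_hasEigenvector
  exact ⟨x, hx.2, hx.apply_eq_smul⟩

/-- powers of `N` are injective on the parts of large weight -/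
theorem Star.inj (hp : 1 < p) (hs : Star ι p w Φ N) (h : N * Φ = (p : E) • (Φ * N)) {α : E}
    {a : ℕ} (hα : ‖ι α‖ ^ 2 = (p : ℝ) ^ (w + a)) {k : ℕ} (hk : k ≤ a) {x : X}
    (hx : x ∈ Φ.maxGenEigenspace α) (h0 : (N ^ k) x = 0) : x = 0 := by
  by_contra hx0
  rcases Nat.eq_zero_or_pos k with hk0 | hk0
  · rw [hk0, pow_zero, Module.End.one_apply] at h0
    exact hx0 h0
  obtain ⟨m, rfl⟩ := Nat.exists_eq_add_of_le' hk0
  obtain ⟨b, hb, hb2⟩ := hs.gen h hx0 hx h0
  have h1 := wt_unique hp hα hb2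
  omega

theorem Star.count_le (hp : 1 < p) (hs : Star ι p w Φ N) (h : N * Φ = (p : E) • (Φ * N)) {α : E}
    {a : ℕ} (hα : ‖ι α‖ ^ 2 = (p : ℝ) ^ (w + a)) {k : ℕ} (hk : k ≤ a) :
    finrank E (Φ.maxGenEigenspace α) ≤ finrank E (Φ.maxGenEigenspace (((p : E) ^ k)⁻¹ * α)) := by
  have hp0 : (p : E) ≠ 0 := by exact_mod_cast (by omega : p ≠ 0)
  have h1 : ∀ x ∈ Φ.maxGenEigenspace α, (N ^ k) x ∈ Φ.maxGenEigenspace (((p : E) ^ k)⁻¹ * α) :=
    fun x hx => mem_nil hp0 h k hx
  refine LinearMap.finrank_le_finrank_of_injective (f := (N ^ k).restrict h1) ?_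
  rw [← LinearMap.ker_eq_bot, LinearMap.ker_eq_bot']
  intro x hx
  apply Subtype.ext
  exact hs.inj hp h hα hk x.2 (congrArg Subtype.val hx)

theorem f_inj (hp : 1 < p) (k : ℕ) : Function.Injective fun α : E => ((p : E) ^ k)⁻¹ * α := by
  have hp0 : (p : E) ≠ 0 := by exact_mod_cast (by omega : p ≠ 0)
  exact mul_right_injective₀ (inv_ne_zero (pow_ne_zero _ hp0))

theorem Star.cnt_le (hp : 1 < p) (hs : Star ι p w Φ N) (h : N * Φ = (p : E) • (Φ * N)) (a : ℕ) :
    cnt ι p (ev Φ) (w + a) ≤ cnt ι p (ev Φ) (w - a) := by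
  classical
  refine card_filter_le (f_inj hp a) (fun α hα => ?_) fun α hα => ?_
  · have h1 := wt_div hp a hα
    rwa [show w + a - 2 * a = w - a by ring] at h1
  · have h1 := hs.count_le hp h hα le_rfl
    rw [← count_ev, ← count_ev] at h1
    convert h1

/-- the weights in a balanced object -/
theorem Star.count_eq (hp : 1 < p) (hs : Star ι p w Φ N) (h : N * Φ = (p : E) • (Φ * N))
    (hb : Bal ι p w Φ) {α : E} {a : ℕ} (hα : ‖ι α‖ ^ 2 = (p : ℝ) ^ (w + a)) :
    finrank E (Φ.maxGenEigenspace α) = finrank E (Φ.maxGenEigenspace (((p : E) ^ a)⁻¹ * α)) := by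
  classical
  set f : E → E := fun α => ((p : E) ^ a)⁻¹ * α with hf
  have hfi : Function.Injective f := f_inj hp a
  have hwt : ∀ β : E, ‖ι β‖ ^ 2 = (p : ℝ) ^ (w + a) → ‖ι (f β)‖ ^ 2 = (p : ℝ) ^ (w - a) := by
    intro β hβ
    have h1 := wt_div hp a hβ
    rwa [show w + a - 2 * a = w - a by ring] at h1
  have hle : ((ev Φ).filter fun α => ‖ι α‖ ^ 2 = (p : ℝ) ^ (w + a)).map f ≤
      (ev Φ).filter fun α => ‖ι α‖ ^ 2 = (p : ℝ) ^ (w - a) := by
    rw [Multiset.le_iff_count]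
    intro β
    by_cases hβ : ∃ α, f α = β
    · obtain ⟨α, rfl⟩ := hβ
      rw [Multiset.count_map_eq_count' f _ hfi]
      by_cases hα : ‖ι α‖ ^ 2 = (p : ℝ) ^ (w + a)
      · rw [cfp hα, cfp (hwt α hα), count_ev,
          count_ev]
        exact hs.count_le hp h hα le_rfl
      · rw [cfn hα]
        exact Nat.zero_le _
    · rw [Multiset.count_eq_zero_of_notMem]
      · exact Nat.zero_le _
      · intro h1
        obtain ⟨α, -, h2⟩ := Multiset.mem_map.1 h1
        exact hβ ⟨α, h2⟩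
  have heq := Multiset.eq_of_le_of_card_le hle (by
    rw [Multiset.card_map]
    exact (hb a).symm.le)
  have h1 := congrArg (Multiset.count (f α)) heq
  rw [Multiset.count_map_eq_count' f _ hfi, cfp hα,
    cfp (hwt α hα), count_ev, count_ev] at h1
  exact h1

/-- surjectivity of the powers of `N` in a balanced object -/
theorem Star.surj (hp : 1 < p) (hs : Star ι p w Φ N) (h : N * Φ = (p : E) • (Φ * N))
    (hb : Bal ι p w Φ) {α : E} {a : ℕ} (hα : ‖ι α‖ ^ 2 = (p : ℝ) ^ (w + a)) {y : X}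
    (hy : y ∈ Φ.maxGenEigenspace (((p : E) ^ a)⁻¹ * α)) :
    ∃ x ∈ Φ.maxGenEigenspace α, (N ^ a) x = y := by
  have hp0 : (p : E) ≠ 0 := by exact_mod_cast (by omega : p ≠ 0)
  have h1 : ∀ x ∈ Φ.maxGenEigenspace α, (N ^ a) x ∈ Φ.maxGenEigenspace (((p : E) ^ a)⁻¹ * α) :=
    fun x hx => mem_nil hp0 h a hx
  have hinj : Function.Injective ((N ^ a).restrict h1) := by
    rw [← LinearMap.ker_eq_bot, LinearMap.ker_eq_bot']
    intro x hx
    apply Subtype.ext
    exact hs.inj hp h hα le_rfl x.2 (congrArg Subtype.val hx)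
  have hsurj := (LinearMap.injective_iff_surjective_of_finrank_eq_finrank
    (hs.count_eq hp h hb hα)).1 hinj
  obtain ⟨x, hx⟩ := hsurj ⟨y, hy⟩
  exact ⟨x, x.2, congrArg Subtype.val hx⟩

/-- the primitive parts of a subobject -/
theorem Star.prim (hp : 1 < p) {Y : Type*} [AddCommGroup Y] [Module E Y] [FiniteDimensional E Y]
    {Φ' N' : End E Y} (hs : Star ι p w Φ N) (h : N * Φ = (p : E) • (Φ * N)) (i : Y →ₗ[E] X) (hi : Function.Injective i)
    (hΦ : ∀ y, i (Φ' y) = Φ (i y)) (hN : ∀ y, i (N' y) = N (i y)) (h' : N' * Φ' = (p : E) • (Φ' * N'))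
    (hb' : Bal ι p w Φ') (a : ℕ) :
    cnt ι p (ev Φ') (w + a) + cnt ι p (ev Φ) (w + a + 2) ≤
      cnt ι p (ev Φ) (w + a) + cnt ι p (ev Φ') (w + a + 2) := by
  classical
  have hp0 : (p : E) ≠ 0 := by exact_mod_cast (by omega : p ≠ 0)
  have hs' : Star ι p w Φ' N' := hs.sub i hi hΦ hN
  have hiN : ∀ m y, i ((N' ^ m) y) = (N ^ m) (i y) := by
    intro m
    induction m with
    | zero => intro y; simp
    | succ m ih =>
      intro y
      rw [pow_succ, Module.End.mul_apply, ih, hN, pow_succ, Module.End.mul_apply]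
  have hig : ∀ {β : E} {y : Y}, y ∈ Φ'.maxGenEigenspace β → i y ∈ Φ.maxGenEigenspace β := by
    intro β y hy
    have h1 := mem_gen (π := i) (A := Φ') (B := Φ) (c := 1) (fun y => by rw [one_smul, hΦ]) hy
    rwa [one_mul] at h1
  have key : ∀ β : E, ‖ι β‖ ^ 2 = (p : ℝ) ^ (w + (a + 2 : ℕ)) →
      finrank E (Φ'.maxGenEigenspace (((p : E) ^ 1)⁻¹ * β)) + finrank E (Φ.maxGenEigenspace β) ≤
        finrank E (Φ.maxGenEigenspace (((p : E) ^ 1)⁻¹ * β)) +
          finrank E (Φ'.maxGenEigenspace β) := by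
    intro β hβ
    set α : E := ((p : E) ^ 1)⁻¹ * β with hα
    set A : Submodule E X := (Φ'.maxGenEigenspace α).map i with hA
    set B : Submodule E X := (Φ.maxGenEigenspace β).map N with hB
    have h1 : finrank E A = finrank E (Φ'.maxGenEigenspace α) :=
      LinearEquiv.finrank_eq (Submodule.equivMapOfInjective i hi _).symm
    have h2 : finrank E (Φ.maxGenEigenspace β) ≤ finrank E B := by
      have h3 : ∀ x ∈ Φ.maxGenEigenspace β, N x ∈ B := fun x hx => Submodule.mem_map_of_mem hx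
      refine LinearMap.finrank_le_finrank_of_injective (f := N.restrict h3) ?_
      rw [← LinearMap.ker_eq_bot, LinearMap.ker_eq_bot']
      intro x hx
      apply Subtype.ext
      refine hs.inj hp h hβ (k := 1) (by omega) x.2 ?_
      rw [pow_one]
      exact congrArg Subtype.val hx
    have h3 : A ⊔ B ≤ Φ.maxGenEigenspace α := by
      refine sup_le ?_ ?_
      · rintro _ ⟨y, hy, rfl⟩
        exact hig hy
      · rintro _ ⟨x, hx, rfl⟩
        have h4 := mem_nil hp0 h 1 hx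
        rwa [pow_one N] at h4
    have h4 : A ⊓ B ≤ (Φ'.maxGenEigenspace β).map (N ∘ₗ i) := by
      rintro x ⟨⟨x₀, hx₀, hx1⟩, ⟨y, hy, hx2⟩⟩
      have h5 : (N' ^ (a + 1)) x₀ ∈ Φ'.maxGenEigenspace (((p : E) ^ (a + 2))⁻¹ * β) := by
        have h6 := mem_nil hp0 h' (a + 1) hx₀
        rw [hα, ← mul_assoc, ← mul_inv, ← pow_add] at h6
        exact h6
      obtain ⟨x', hx', hx'2⟩ := hs'.surj hp h' hb' hβ h5
      have h6 : (N ^ (a + 2)) (i x' - y) = 0 := by
        rw [map_sub, ← hiN, hx'2, hiN, show a + 2 = (a + 1) + 1 by ring, pow_succ N (a + 1),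
          Module.End.mul_apply, hx1, hx2, sub_self]
      have h7 := hs.inj hp h hβ le_rfl (Submodule.sub_mem _ (hig hx') hy) h6
      refine ⟨x', hx', ?_⟩
      rw [LinearMap.comp_apply, sub_eq_zero.1 h7, hx2]
    have h5 := Submodule.finrank_sup_add_finrank_inf_eq A B
    have h6 := Submodule.finrank_mono h3
    have h7 := (Submodule.finrank_mono h4).trans (Submodule.finrank_map_le _ _)
    omega
  -- multisets
  set f : E → E := fun α => ((p : E) ^ 1)⁻¹ * α with hf
  have hfi : Function.Injective f := f_inj hp 1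
  have hwt : ∀ β : E, ‖ι β‖ ^ 2 = (p : ℝ) ^ (w + a + 2) → ‖ι (f β)‖ ^ 2 = (p : ℝ) ^ (w + a) := by
    intro β hβ
    have h1 := wt_div hp 1 hβ
    rwa [show w + a + 2 - 2 * (1 : ℕ) = w + a by push_cast; ring] at h1
  have hle : ((ev Φ').filter fun α => ‖ι α‖ ^ 2 = (p : ℝ) ^ (w + a)) +
      ((ev Φ).filter fun α => ‖ι α‖ ^ 2 = (p : ℝ) ^ (w + a + 2)).map f ≤
      ((ev Φ).filter fun α => ‖ι α‖ ^ 2 = (p : ℝ) ^ (w + a)) +
      ((ev Φ').filter fun α => ‖ι α‖ ^ 2 = (p : ℝ) ^ (w + a + 2)).map f := by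
    rw [Multiset.le_iff_count]
    intro α
    have hα : f ((p : E) * α) = α := by
      rw [hf]
      simp only [pow_one]
      rw [inv_mul_cancel_left₀ hp0]
    rw [Multiset.count_add, Multiset.count_add]
    nth_rewrite 2 [← hα]
    nth_rewrite 4 [← hα]
    rw [Multiset.count_map_eq_count' f _ hfi, Multiset.count_map_eq_count' f _ hfi]
    by_cases h1 : ‖ι α‖ ^ 2 = (p : ℝ) ^ (w + a)
    · have h2 : ‖ι ((p : E) * α)‖ ^ 2 = (p : ℝ) ^ (w + a + 2) := by
        have h3 := wt_mul hp 1 h1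
        rwa [pow_one (p : E)] at h3
      rw [cfp h1, cfp h1,
        cfp h2, cfp h2, count_ev, count_ev,
        count_ev, count_ev]
      have h3 := key ((p : E) * α) (by
        rw [h2]
        congr 1
        push_cast
        ring)
      rw [show ((p : E) ^ 1)⁻¹ * ((p : E) * α) = α from hα] at h3
      exact h3
    · have h2 : ¬ ‖ι ((p : E) * α)‖ ^ 2 = (p : ℝ) ^ (w + a + 2) := by
        intro h2
        apply h1
        have h3 := hwt _ h2
        rwa [hα] at h3
      rw [cfn h1, cfn h1,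
        cfn h2, cfn h2]
  have h1 := Multiset.card_le_card hle
  rw [Multiset.card_add, Multiset.card_add, Multiset.card_map, Multiset.card_map] at h1
  exact h1

end star

end Pool.Agent.Y126.BP
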