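import Pool.Agent.Y126.BP.Blocks

/-!
# The determinant of Frobenius
-/

set_option autoImplicit false
set_option linter.unusedSectionVars false

namespace Pool.Agent.Y126.BP

open Module Module.End Polynomial

section star

variable {E : Type*} [Field E] [IsAlgClosed E] [CharZero E] {ι : E →+* ℂ} {p : ℕ} {w : ℤ}
variable {X : Type*} [AddCommGroup X] [Module E X] [FiniteDimensional E X] {Φ N : End E X}

open scoped Classical in
/-- the weight -/
noncomputable def wt (ι : E →+* ℂ) (p : ℕ) (α : E) : ℤ :=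
  if h : ∃ a : ℤ, ‖ι α‖ ^ 2 = (p : ℝ) ^ a then h.choose else 0

theorem wt_spec {α : E} (h : ∃ a : ℤ, ‖ι α‖ ^ 2 = (p : ℝ) ^ a) :
    ‖ι α‖ ^ 2 = (p : ℝ) ^ (wt ι p α) := by
  rw [wt, dif_pos h]
  exact h.choose_spec

theorem norm_prod (hp : 1 < p) {R : Multiset E} (h : ∀ α ∈ R, ∃ a : ℤ, ‖ι α‖ ^ 2 = (p : ℝ) ^ a) :
    ‖ι R.prod‖ ^ 2 = (p : ℝ) ^ (R.map (wt ι p)).sum := by
  have hp0 : (p : ℝ) ≠ 0 := by exact_mod_cast (by omega : p ≠ 0)
  induction R using Multiset.induction_on with
  | empty => simp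
  | cons α R ih =>
    rw [Multiset.prod_cons, Multiset.map_cons, Multiset.sum_cons, map_mul, norm_mul, mul_pow,
      ih fun β hβ => h β (Multiset.mem_cons_of_mem hβ), zpow_add₀ hp0,
      wt_spec (h α (Multiset.mem_cons_self α R))]

theorem det_eq_prod (Φ : End E X) : ‖ι (LinearMap.det Φ)‖ ^ 2 = ‖ι (ev Φ).prod‖ ^ 2 := by
  have hsp : Φ.charpoly.Splits := IsAlgClosed.splits _
  have h1 := hsp.coeff_zero_eq_prod_roots_of_monic (LinearMap.charpoly_monic Φ)
  rw [LinearMap.det_eq_sign_charpoly_coeff, h1, ev]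
  rw [map_mul, map_mul, norm_mul, norm_mul, map_pow, map_neg, map_one, norm_pow, norm_neg,
    norm_one, one_pow, one_mul, map_pow, map_neg, map_one, norm_pow, norm_neg, norm_one, one_pow,
    one_mul]

theorem count_shift (hp : 1 < p) {R : Multiset E}
    (h : ∀ α ∈ R, ∃ a : ℤ, ‖ι α‖ ^ 2 = (p : ℝ) ^ a) (w a : ℤ) :
    (R.map fun α => wt ι p α - w).count a = cnt ι p R (w + a) := by
  classical
  rw [Multiset.count_map, cnt]
  congr 1
  apply Multiset.filter_congr
  intro α hα
  constructor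
  · intro h1
    rw [wt_spec (h α hα)]
    congr 1
    omega
  · intro h1
    have h2 := wt_unique hp h1 (wt_spec (h α hα))
    omega

theorem Star.det (hp : 1 < p) (hs : Star ι p w Φ N) (h : N * Φ = (p : E) • (Φ * N))
    (hN : IsNilpotent N) : ∃ T : ℤ, ‖ι (LinearMap.det Φ)‖ ^ 2 = (p : ℝ) ^ T ∧
      T ≤ w * finrank E X ∧ (T = w * finrank E X → Bal ι p w Φ) := by
  have hm : ∀ α ∈ ev Φ, ∃ a : ℤ, ‖ι α‖ ^ 2 = (p : ℝ) ^ a := by
    intro α hα
    obtain ⟨x, hx0, hx⟩ := exists_eigen hα
    exact hs.mixed hN hx0 hx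
  refine ⟨((ev Φ).map (wt ι p)).sum, ?_, ?_⟩
  · rw [det_eq_prod, norm_prod hp hm]
  have h1 : ((ev Φ).map fun α => wt ι p α - w).sum =
      ((ev Φ).map (wt ι p)).sum - w * finrank E X := by
    rw [Multiset.sum_map_sub, Multiset.map_const', Multiset.sum_replicate, card_ev, nsmul_eq_mul,
      mul_comm]
  have h2 := sum_nonpos (M := (ev Φ).map fun α => wt ι p α - w) (by
    intro a
    rw [count_shift hp hm, count_shift hp hm]
    exact hs.cnt_le hp h a)
  rw [h1] at h2
  refine ⟨by linarith [h2.1], fun h3 a => ?_⟩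
  have h4 := h2.2 (by omega) a
  rw [count_shift hp hm, count_shift hp hm] at h4
  exact h4

theorem Star.cnt_zero (hp : 1 < p) (hs : Star ι p w Φ N) (h : N * Φ = (p : E) • (Φ * N))
    (hN : IsNilpotent N) {a : ℕ} (ha : finrank E X ≤ a) : cnt ι p (ev Φ) (w + a) = 0 := by
  classical
  rw [cnt, Multiset.card_eq_zero, Multiset.eq_zero_iff_forall_notMem]
  intro α hα
  rw [Multiset.mem_filter] at hα
  obtain ⟨hα1, hα2⟩ := hα
  obtain ⟨x, hx0, hx⟩ := exists_eigen hα1
  have h1 : N ^ finrank E X = 0 := by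
    have h2 := LinearMap.aeval_self_charpoly N
    rwa [(LinearMap.isNilpotent_iff_charpoly N).1 hN, map_pow, aeval_X] at h2
  apply hx0
  refine hs.inj hp h hα2 ha (x := x) ?_ (by rw [h1, LinearMap.zero_apply])
  rw [mem_maxGenEigenspace]
  refine ⟨1, ?_⟩
  rw [pow_one, LinearMap.sub_apply, LinearMap.smul_apply, Module.End.one_apply, hx, sub_self]

theorem Star.cnt_succ (hp : 1 < p) (hs : Star ι p w Φ N) (h : N * Φ = (p : E) • (Φ * N)) (a : ℕ) :
    cnt ι p (ev Φ) (w + a + 2) ≤ cnt ι p (ev Φ) (w + a) := by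
  classical
  refine card_filter_le (f_inj hp 1) (fun α hα => ?_) fun α hα => ?_
  · have h1 := wt_div hp 1 hα
    rwa [show w + a + 2 - 2 * (1 : ℕ) = w + a by push_cast; ring] at h1
  · have h2 : ‖ι α‖ ^ 2 = (p : ℝ) ^ (w + (a + 2 : ℕ)) := by
      rw [hα]
      congr 1
      push_cast
      ring
    have h1 := hs.count_le hp h h2 (k := 1) (by omega)
    rw [← count_ev, ← count_ev] at h1
    convert h1

theorem sum_blocks (u : ℕ → ℤ) (D : ℕ) :
    ∑ j ∈ Finset.range D, ((j : ℤ) + 1) * (u j - u (j + 2)) + (D - 1) * u D + D * u (D + 1) =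
      2 * ∑ j ∈ Finset.range D, u j - u 0 := by
  induction D with
  | zero => simp
  | succ D ih =>
    rw [Finset.sum_range_succ, Finset.sum_range_succ, mul_add]
    push_cast
    rw [show D + 1 + 1 = D + 2 by ring]
    linarith

theorem card_eq_sum (hp : 1 < p) (hs : Star ι p w Φ N) (h : N * Φ = (p : E) • (Φ * N))
    (hN : IsNilpotent N) (hb : Bal ι p w Φ) {D : ℕ} (hD : finrank E X ≤ D) :
    (finrank E X : ℤ) = 2 * ∑ j ∈ Finset.range D, (cnt ι p (ev Φ) (w + j) : ℤ) -
      cnt ι p (ev Φ) w := by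
  classical
  have hm : ∀ α ∈ ev Φ, ∃ a : ℤ, ‖ι α‖ ^ 2 = (p : ℝ) ^ a := by
    intro α hα
    obtain ⟨x, hx0, hx⟩ := exists_eigen hα
    exact hs.mixed hN hx0 hx
  set M : Multiset ℤ := (ev Φ).map fun α => wt ι p α - w with hM
  have hMc : ∀ a, M.count a = cnt ι p (ev Φ) (w + a) := fun a => count_shift hp hm w a
  have hcard : (Multiset.card M : ℤ) = finrank E X := by
    rw [hM, Multiset.card_map, card_ev]
  have hbound : ∀ a : ℕ, D ≤ a → M.count (a : ℤ) = 0 := by
    intro a ha
    rw [hMc]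
    exact hs.cnt_zero hp h hN (hD.trans ha)
  have hsym : ∀ a : ℤ, M.count (-a) = M.count a := by
    intro a
    rw [hMc, hMc]
    have := hb a
    rw [show w + -a = w - a by ring]
    exact this.symm
  -- the sum over an interval
  have h1 : (Multiset.card M : ℤ) = ∑ a ∈ Finset.Ioo (-(D : ℤ)) D, (M.count a : ℤ) := by
    rw [← Nat.cast_sum, Multiset.sum_count_eq_card]
    intro a ha
    rw [Finset.mem_Ioo]
    have h2 : M.count a ≠ 0 := Multiset.count_ne_zero.2 ha
    constructor
    · by_contra h3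
      obtain ⟨n, hn⟩ := Int.eq_ofNat_of_zero_le (show 0 ≤ -a by omega)
      apply h2
      rw [← hsym, hn]
      exact hbound n (by omega)
    · by_contra h3
      obtain ⟨n, hn⟩ := Int.eq_ofNat_of_zero_le (show 0 ≤ a by omega)
      apply h2
      rw [hn]
      exact hbound n (by omega)
  have h2 : ∀ D : ℕ, ∑ a ∈ Finset.Ioo (-(D : ℤ)) D, (M.count a : ℤ) + (if D = 0 then M.count 0 else 0 : ℤ) =
      2 * ∑ j ∈ Finset.range D, (M.count (j : ℤ) : ℤ) - M.count 0 + (if D = 0 then 2 * M.count 0 else 0 : ℤ) := by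
    intro D
    induction D with
    | zero =>
      simp
      ring
    | succ D ih =>
      rw [if_neg (Nat.succ_ne_zero D), if_neg (Nat.succ_ne_zero D), add_zero, add_zero,
        Finset.sum_range_succ]
      rcases Nat.eq_zero_or_pos D with hD0 | hD0
      · subst hD0
        have h3 : Finset.Ioo (-((0 + 1 : ℕ) : ℤ)) ((0 + 1 : ℕ) : ℤ) = {0} := by
          ext a
          rw [Finset.mem_Ioo, Finset.mem_singleton]
          push_cast
          omega
        rw [h3]
        simp
        ring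
      · rw [if_neg (by omega), if_neg (by omega), add_zero, add_zero] at ih
        have h3 : Finset.Ioo (-((D + 1 : ℕ) : ℤ)) ((D + 1 : ℕ) : ℤ) =
            insert (-(D : ℤ)) (insert (D : ℤ) (Finset.Ioo (-(D : ℤ)) D)) := by
          ext a
          rw [Finset.mem_Ioo, Finset.mem_insert, Finset.mem_insert, Finset.mem_Ioo]
          push_cast
          omega
        rw [h3, Finset.sum_insert, Finset.sum_insert, ih, hsym]
        · ring
        · rw [Finset.mem_Ioo]
          omega
        · rw [Finset.mem_insert, Finset.mem_Ioo]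
          omega
  rw [← hcard, h1]
  have h3 := h2 D
  have h4 : (cnt ι p (ev Φ) w : ℤ) = M.count 0 := by
    rw [hMc, add_zero]
  rw [h4]
  simp only [← hMc]
  rcases Nat.eq_zero_or_pos D with hD0 | hD0
  · subst hD0
    have h5 : finrank E X = 0 := by omega
    have h6 : M.count 0 = 0 := by
      rw [Multiset.count_eq_zero]
      intro h7
      have h8 := Multiset.card_pos_iff_exists_mem.2 ⟨_, h7⟩
      have h9 : (Multiset.card M : ℤ) = 0 := by rw [hcard, h5]; rfl
      omega
    rw [h6]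
    simp
  · rw [if_neg (by omega), if_neg (by omega), add_zero, add_zero] at h3
    exact h3

end star

end Pool.Agent.Y126.BP
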