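import Pool.Agent.Y126.BP.Local
import Pool.Agent.Y126.MU.Mem

/-!
# Jordan blocks of different sizes
-/

set_option autoImplicit false
set_option linter.unusedSectionVars false

namespace Pool.Agent.Y126.BP

open Module Module.End Polynomial TensorProduct

section small

variable {E : Type*} [Field E] [IsAlgClosed E] [CharZero E] {ι : E →+* ℂ} {p : ℕ} {w : ℤ}
variable {X : Type*} [AddCommGroup X] [Module E X] [FiniteDimensional E X] {Φ N : End E X}
  {B : LinearMap.BilinForm E X}

theorem skew_pow (hsk : ∀ x y, B (N x) y = -B x (N y)) (j : ℕ) (x y : X) :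
    B ((N ^ j) x) y = (-1) ^ j * B x ((N ^ j) y) := by
  induction j generalizing x y with
  | zero => simp
  | succ j ih =>
    have e1 : (N ^ (j + 1)) x = N ((N ^ j) x) := by rw [pow_succ', Module.End.mul_apply]
    have e2 : (N ^ (j + 1)) y = (N ^ j) (N y) := by rw [pow_succ, Module.End.mul_apply]
    rw [e1, e2, hsk, ih, pow_succ]
    ring

theorem range_eq_orth (hB : B.Nondegenerate) (hsk : ∀ x y, B (N x) y = -B x (N y)) (j : ℕ) :
    LinearMap.range (N ^ j) = B.orthogonal (LinearMap.ker (N ^ j)) := by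
  apply Submodule.eq_of_le_of_finrank_eq
  · rintro _ ⟨x, rfl⟩ k hk
    have h1 := skew_pow hsk j k x
    rw [LinearMap.mem_ker.1 hk, map_zero, LinearMap.zero_apply] at h1
    have h2 : ((-1 : E)) ^ j ≠ 0 := pow_ne_zero _ (by norm_num)
    exact (mul_eq_zero.1 h1.symm).resolve_left h2
  · rw [LinearMap.BilinForm.finrank_orthogonal hB]
    have h1 := LinearMap.finrank_range_add_finrank_ker (N ^ j)
    omega

theorem star_of_small (hp : 1 < p) (hB : B.Nondegenerate)
    (hΦ : ∀ x y, B (Φ x) (Φ y) = (p : E) ^ w * B x y) (hsk : ∀ x y, B (N x) y = -B x (N y))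
    (h : N * Φ = (p : E) • (Φ * N)) (hN : IsNilpotent N)
    (hm : ∀ j : ℕ, finrank E (LinearMap.range (N ^ j)) + finrank E (LinearMap.range (N ^ (j + 2))) ≤
      2 * finrank E (LinearMap.range (N ^ (j + 1))) + 1) : Star ι p w Φ N := by
  classical
  intro α x k hx0 hx hk
  have hp0 : (p : E) ≠ 0 := by exact_mod_cast (by omega : p ≠ 0)
  -- the last nonzero vector of the string
  have hex : ∃ k, (N ^ (k + 1)) x = 0 := ⟨k, hk⟩
  set k₀ := Nat.find hex with hk₀
  have hk₀k : k₀ ≤ k := Nat.find_min' hex hk
  have hk₀0 : (N ^ (k₀ + 1)) x = 0 := Nat.find_spec hex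
  set y : X := (N ^ k₀) x with hy
  have hy0 : y ≠ 0 := by
    rcases Nat.eq_zero_or_pos k₀ with h0 | h0
    · rw [hy, h0, pow_zero, Module.End.one_apply]
      exact hx0
    · obtain ⟨m, hm'⟩ := Nat.exists_eq_add_of_le' h0
      intro h1
      have h2 := Nat.find_min hex (m := m) (by omega)
      apply h2
      rw [← hm']
      exact h1
  have hNy : N y = 0 := by
    rw [hy, ← Module.End.mul_apply, ← pow_succ']
    exact hk₀0
  -- the largest `i` such that `y` is in the image of `N ^ i`
  obtain ⟨n, hn⟩ := hN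
  have hex2 : ∃ i, y ∉ LinearMap.range (N ^ i) := by
    refine ⟨n, ?_⟩
    rw [hn, LinearMap.range_zero, Submodule.mem_bot]
    exact hy0
  set i' := Nat.find hex2 with hi'
  have hi'pos : k₀ < i' := by
    by_contra hcon
    rw [not_lt] at hcon
    apply Nat.find_spec hex2
    rw [← hi']
    obtain ⟨c, hc⟩ := Nat.exists_eq_add_of_le hcon
    refine ⟨(N ^ c) x, ?_⟩
    rw [← Module.End.mul_apply, ← pow_add, ← hc]
  obtain ⟨i, hi⟩ : ∃ i, i' = i + 1 := ⟨i' - 1, by omega⟩
  have hyi : y ∈ LinearMap.range (N ^ i) := by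
    have h1 := Nat.find_min hex2 (m := i) (by omega)
    rwa [not_not] at h1
  have hyi2 : y ∉ LinearMap.range (N ^ (i + 1)) := by
    rw [← hi]
    exact Nat.find_spec hex2
  obtain ⟨z, hz⟩ := hyi
  -- one block of size `i + 1`
  have hspan : ∀ x' ∈ AA N i, ∃ c : E, x' - c • y ∈ AA N (i + 1) := by
    have hyA : y ∈ AA N i := ⟨hNy, z, hz⟩
    have hyA2 : y ∉ AA N (i + 1) := fun h1 => hyi2 h1.2
    have hle : AA N (i + 1) ≤ AA N i := by
      rintro x ⟨hx, y, rfl⟩
      refine ⟨hx, N y, ?_⟩
      rw [pow_succ, Module.End.mul_apply]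
    have hsup : AA N (i + 1) ⊔ Submodule.span E {y} = AA N i := by
      apply Submodule.eq_of_le_of_finrank_le
      · refine sup_le hle ?_
        rw [Submodule.span_singleton_le_iff_mem]
        exact hyA
      · have h1 := dim_AA (N := N) i
        have h2 := dim_AA (N := N) (i + 1)
        have h3 := hm i
        have h4 := Submodule.finrank_sup_add_finrank_inf_eq (AA N (i + 1)) (Submodule.span E {y})
        have h5 : finrank E (Submodule.span E {y}) = 1 := finrank_span_singleton hy0
        have h6 : AA N (i + 1) ⊓ Submodule.span E {y} = ⊥ := by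
          rw [Submodule.eq_bot_iff]
          rintro t ⟨ht1, ht2⟩
          obtain ⟨c, rfl⟩ := Submodule.mem_span_singleton.1 ht2
          by_cases hc : c = 0
          · rw [hc, zero_smul]
          · exfalso
            apply hyA2
            have h7 := Submodule.smul_mem _ c⁻¹ ht1
            rwa [smul_smul, inv_mul_cancel₀ hc, one_smul] at h7
        rw [h6, finrank_bot, add_zero] at h4
        rw [show i + 1 + 1 = i + 2 by ring] at h2
        omega
    intro x' hx'
    rw [← hsup] at hx'
    obtain ⟨a, ha, b, hb, hab⟩ := Submodule.mem_sup.1 hx'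
    obtain ⟨c, rfl⟩ := Submodule.mem_span_singleton.1 hb
    refine ⟨c, ?_⟩
    rw [← hab, add_sub_cancel_right]
    exact ha
  -- the value of the form
  have hzy : B z y ≠ 0 := by
    intro h0
    apply hyi2
    rw [range_eq_orth hB hsk]
    intro x' hx'
    have h1 : (N ^ i) x' ∈ AA N i := by
      refine ⟨?_, x', rfl⟩
      rw [SetLike.mem_coe, LinearMap.mem_ker, ← Module.End.mul_apply, ← pow_succ']
      exact hx'
    obtain ⟨c, -, t, ht⟩ := hspan _ h1
    have h2 : (N ^ i) (x' - c • z - N t) = 0 := by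
      rw [map_sub, map_sub, map_smul, hz, ← Module.End.mul_apply, ← pow_succ, ht, sub_self]
    have h3 : B (x' - c • z - N t) y = 0 := by
      have h4 := skew_pow hsk i (x' - c • z - N t) z
      rw [h2, map_zero, LinearMap.zero_apply, hz] at h4
      have h5 : ((-1 : E)) ^ i ≠ 0 := pow_ne_zero _ (by norm_num)
      exact (mul_eq_zero.1 h4.symm).resolve_left h5
    have h4 : B (N t) y = 0 := by rw [hsk, hNy, map_zero, neg_zero]
    have h5 : B x' y = B (x' - c • z - N t) y + c * B z y + B (N t) y := by
      rw [map_sub, map_sub, map_smul, LinearMap.sub_apply, LinearMap.sub_apply,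
        LinearMap.smul_apply, smul_eq_mul]
      ring
    change B x' y = 0
    rw [h5, h3, h4, h0]
    ring
  -- Frobenius
  set β : E := ((p : E) ^ k₀)⁻¹ * α with hβ
  have hΦy : Φ y = β • y := by
    rw [hy, nil_semi hp0 h, hx, map_smul, smul_smul]
  have h1 : B (Φ z) y = (p : E) ^ i * β * B z y := by
    have h2 : (N ^ i) (Φ z - ((p : E) ^ i * β) • z) = 0 := by
      rw [map_sub, nil_pow h, hz, hΦy, map_smul, hz, smul_smul, sub_self]
    have h4 := skew_pow hsk i (Φ z - ((p : E) ^ i * β) • z) z
    rw [h2, map_zero, LinearMap.zero_apply, hz] at h4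
    have h5 : ((-1 : E)) ^ i ≠ 0 := pow_ne_zero _ (by norm_num)
    have h6 := (mul_eq_zero.1 h4.symm).resolve_left h5
    rw [map_sub, LinearMap.sub_apply, map_smul, LinearMap.smul_apply, smul_eq_mul, sub_eq_zero] at h6
    exact h6
  have h2 : (p : E) ^ i * β ^ 2 = (p : E) ^ w := by
    have h3 := hΦ z y
    rw [hΦy, map_smul, smul_eq_mul, h1] at h3
    apply mul_right_cancel₀ hzy
    rw [← h3]
    ring
  have hpR : (p : ℝ) ≠ 0 := by exact_mod_cast (by omega : p ≠ 0)
  have h3 : ‖ι β‖ ^ 2 = (p : ℝ) ^ (w - i) := by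
    have h4 := congrArg (fun t => ‖ι t‖) h2
    simp only [map_mul, map_pow, map_zpow₀, map_natCast, norm_mul, norm_pow, norm_zpow,
      Complex.norm_natCast] at h4
    rw [zpow_sub₀ hpR, eq_div_iff (zpow_ne_zero _ hpR), zpow_natCast, ← h4]
    ring
  have h4 := wt_mul hp k₀ h3
  rw [hβ, mul_inv_cancel_left₀ (pow_ne_zero _ hp0)] at h4
  exact ⟨_, by omega, h4⟩

end small

section base

variable {F : Type*} [Field F] {Ω : Type*} [Field Ω] [Algebra F Ω]
  {V : Type*} [AddCommGroup V] [Module F V] [FiniteDimensional F V]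
  {B : LinearMap.BilinForm F V}

theorem nondeg_baseChange (hB : B.Nondegenerate) : (B.baseChange Ω).Nondegenerate := by
  classical
  let b := Module.finBasis F V
  rw [LinearMap.BilinForm.nondegenerate_iff_det_ne_zero (b.baseChange Ω)]
  have h1 : LinearMap.BilinForm.toMatrix (b.baseChange Ω) (B.baseChange Ω) =
      (LinearMap.BilinForm.toMatrix b B).map (algebraMap F Ω) := by
    ext i j
    rw [LinearMap.BilinForm.toMatrix_apply, Matrix.map_apply, LinearMap.BilinForm.toMatrix_apply,
      Module.Basis.baseChange_apply, Module.Basis.baseChange_apply,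
      LinearMap.BilinForm.baseChange_tmul, mul_one, Algebra.algebraMap_eq_smul_one]
  rw [h1]
  have h2 : ((LinearMap.BilinForm.toMatrix b B).map (algebraMap F Ω)).det =
      algebraMap F Ω (LinearMap.BilinForm.toMatrix b B).det := by
    rw [RingHom.map_det]
    rfl
  rw [h2, _root_.map_ne_zero]
  exact (LinearMap.BilinForm.nondegenerate_iff_det_ne_zero b).1 hB

theorem form_baseChange {f g f' g' : End F V} {s : F}
    (h : ∀ x y, B (f x) (g y) = s * B (f' x) (g' y)) (x y : Ω ⊗[F] V) :
    B.baseChange Ω (f.baseChange Ω x) (g.baseChange Ω y) =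
      algebraMap F Ω s * B.baseChange Ω (f'.baseChange Ω x) (g'.baseChange Ω y) := by
  induction x using TensorProduct.induction_on with
  | zero => simp
  | add x x' hx hx' => rw [map_add, map_add, map_add, map_add, LinearMap.add_apply,
      LinearMap.add_apply, hx, hx', mul_add]
  | tmul a u =>
    induction y using TensorProduct.induction_on with
    | zero => simp
    | add y y' hy hy' => rw [map_add, map_add, map_add, map_add, hy, hy', mul_add]
    | tmul b v =>
      rw [LinearMap.baseChange_tmul, LinearMap.baseChange_tmul, LinearMap.baseChange_tmul,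
        LinearMap.baseChange_tmul, LinearMap.BilinForm.baseChange_tmul,
        LinearMap.BilinForm.baseChange_tmul, h, Algebra.smul_def, Algebra.smul_def, map_mul,
        mul_assoc]

variable [CharZero F] [IsAlgClosed Ω] [CharZero Ω] {ι : Ω →+* ℂ} {p : ℕ} {w : ℤ} {Φ N : End F V}

theorem star_baseChange (hp : 1 < p) (hB : B.Nondegenerate)
    (hΦ : ∀ x y, B (Φ x) (Φ y) = (p : F) ^ w * B x y) (hsk : ∀ x y, B (N x) y = -B x (N y))
    (h : N * Φ = (p : F) • (Φ * N)) (hN : IsNilpotent N)
    (hm : ∀ j : ℕ, finrank F (LinearMap.range (N ^ j)) + finrank F (LinearMap.range (N ^ (j + 2))) ≤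
      2 * finrank F (LinearMap.range (N ^ (j + 1))) + 1) :
    Star ι p w (Φ.baseChange Ω) (N.baseChange Ω) := by
  refine star_of_small (B := B.baseChange Ω) hp (nondeg_baseChange hB) (fun x y => ?_)
    (fun x y => ?_) (baseChange_rel h) (baseChange_nil hN) fun j => ?_
  · have h1 := form_baseChange (Ω := Ω) (f := Φ) (g := Φ) (f' := 1) (g' := 1) (s := (p : F) ^ w)
      (fun x y => hΦ x y) x y
    rw [h1, LinearMap.baseChange_one, Module.End.one_apply, Module.End.one_apply, map_zpow₀,
      map_natCast]
  · have h1 := form_baseChange (Ω := Ω) (B := B) (f := N) (g := 1) (f' := 1) (g' := N) (s := -1)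
      (fun x y => by
        rw [neg_one_mul]
        exact hsk x y) x y
    rw [LinearMap.baseChange_one, Module.End.one_apply, Module.End.one_apply, map_neg, map_one,
      neg_one_mul] at h1
    exact h1
  · rw [← LinearMap.baseChange_pow, ← LinearMap.baseChange_pow, ← LinearMap.baseChange_pow,
      finrank_range_baseChange, finrank_range_baseChange, finrank_range_baseChange]
    exact hm j

end base

end Pool.Agent.Y126.BP
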