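import Mathlib

/-!
# Generalized eigenspaces and a nilpotent operator with `N Φ = q Φ N`
-/

set_option autoImplicit false
set_option linter.unusedSectionVars false

namespace Pool.Agent.Y126.BP

open Module Module.End Polynomial

section gen

variable {E : Type*} [Field E] {X : Type*} [AddCommGroup X] [Module E X]
  {Y : Type*} [AddCommGroup Y] [Module E Y]

theorem pow_semi {π : X →ₗ[E] Y} {A : End E X} {B : End E Y} {c : E}
    (h : ∀ x, B (π x) = c • π (A x)) (n : ℕ) (x : X) : (B ^ n) (π x) = c ^ n • π ((A ^ n) x) := by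
  induction n generalizing x with
  | zero => simp
  | succ n ih =>
    rw [pow_succ, Module.End.mul_apply, h, map_smul, ih, smul_smul, pow_succ A,
      Module.End.mul_apply, pow_succ']

theorem mem_gen {π : X →ₗ[E] Y} {A : End E X} {B : End E Y} {c : E}
    (h : ∀ x, B (π x) = c • π (A x)) {α : E} {x : X} (hx : x ∈ A.maxGenEigenspace α) :
    π x ∈ B.maxGenEigenspace (c * α) := by
  rw [mem_maxGenEigenspace] at hx ⊢
  obtain ⟨k, hk⟩ := hx
  refine ⟨k, ?_⟩
  have h1 : ∀ x, (B - (c * α) • (1 : End E Y)) (π x) = c • π ((A - α • (1 : End E X)) x) := by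
    intro x
    rw [LinearMap.sub_apply, LinearMap.sub_apply, h, LinearMap.smul_apply, LinearMap.smul_apply,
      Module.End.one_apply, Module.End.one_apply, map_sub, map_smul, smul_sub, smul_smul]
  rw [pow_semi h1, hk, map_zero, smul_zero]

theorem lift_gen [IsAlgClosed E] [FiniteDimensional E X] {π : X →ₗ[E] Y} {A : End E X}
    {B : End E Y} {c : E} (hc : c ≠ 0) (h : ∀ x, B (π x) = c • π (A x)) {β : E} {x : X}
    (hx : π x ∈ B.maxGenEigenspace β) :
    ∃ x' ∈ A.maxGenEigenspace (c⁻¹ * β), π x' = π x := by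
  have htop : x ∈ ⨆ μ, A.maxGenEigenspace μ := by
    rw [iSup_maxGenEigenspace_eq_top]
    exact Submodule.mem_top
  have h1 : (⨆ μ, A.maxGenEigenspace μ) ≤
      A.maxGenEigenspace (c⁻¹ * β) ⊔ ⨆ (μ : E) (_ : μ ≠ c⁻¹ * β), A.maxGenEigenspace μ := by
    refine iSup_le fun μ => ?_
    by_cases hμ : μ = c⁻¹ * β
    · rw [hμ]
      exact le_sup_left
    · exact le_sup_of_le_right (le_iSup₂_of_le μ hμ le_rfl)
  obtain ⟨x₀, hx₀, x₁, hx₁, hsum⟩ := Submodule.mem_sup.1 (h1 htop)
  refine ⟨x₀, hx₀, ?_⟩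
  have h2 : π x₀ ∈ B.maxGenEigenspace β := by
    have h3 := mem_gen h hx₀
    rwa [mul_inv_cancel_left₀ hc] at h3
  have h3 : π x₁ ∈ B.maxGenEigenspace β := by
    have h4 : π x₁ = π x - π x₀ := by rw [← hsum, map_add, add_sub_cancel_left]
    rw [h4]
    exact Submodule.sub_mem _ hx h2
  have h4 : π x₁ ∈ ⨆ (μ : E) (_ : μ ≠ β), B.maxGenEigenspace μ := by
    have h5 : (⨆ (μ : E) (_ : μ ≠ c⁻¹ * β), A.maxGenEigenspace μ).map π ≤
        ⨆ (μ : E) (_ : μ ≠ β), B.maxGenEigenspace μ := by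
      rw [Submodule.map_iSup]
      refine iSup_le fun μ => ?_
      rw [Submodule.map_iSup]
      refine iSup_le fun hμ => ?_
      have h6 : c * μ ≠ β := by
        intro h7
        apply hμ
        rw [← h7, inv_mul_cancel_left₀ hc]
      refine le_trans ?_ (le_iSup₂_of_le (c * μ) h6 le_rfl)
      rintro _ ⟨y, hy, rfl⟩
      exact mem_gen h hy
    exact h5 (Submodule.mem_map_of_mem hx₁)
  have h5 : π x₁ = 0 := by
    have h6 := (independent_maxGenEigenspace B) β
    rw [disjoint_iff] at h6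
    have h7 : π x₁ ∈ B.maxGenEigenspace β ⊓ ⨆ (μ : E) (_ : μ ≠ β), B.maxGenEigenspace μ :=
      ⟨h3, h4⟩
    rwa [h6, Submodule.mem_bot] at h7
  rw [← hsum, map_add, h5, add_zero]

end gen

section nil

variable {E : Type*} [Field E] {X : Type*} [AddCommGroup X] [Module E X]
  {Φ N : End E X} {q : E}

theorem nil_pow (h : N * Φ = q • (Φ * N)) (k : ℕ) (x : X) :
    (N ^ k) (Φ x) = q ^ k • Φ ((N ^ k) x) := by
  induction k generalizing x with
  | zero => simp
  | succ k ih =>
    have h1 : N (Φ x) = q • Φ (N x) := by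
      have h2 := LinearMap.congr_fun h x
      rwa [LinearMap.smul_apply, Module.End.mul_apply, Module.End.mul_apply] at h2
    rw [pow_succ, Module.End.mul_apply, h1, map_smul, ih, smul_smul, Module.End.mul_apply,
      pow_succ']

theorem nil_semi (hq : q ≠ 0) (h : N * Φ = q • (Φ * N)) (k : ℕ) (x : X) :
    Φ ((N ^ k) x) = (q ^ k)⁻¹ • (N ^ k) (Φ x) := by
  rw [nil_pow h, smul_smul, inv_mul_cancel₀ (pow_ne_zero _ hq), one_smul]

theorem mem_nil (hq : q ≠ 0) (h : N * Φ = q • (Φ * N)) (k : ℕ) {α : E} {x : X}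
    (hx : x ∈ Φ.maxGenEigenspace α) : (N ^ k) x ∈ Φ.maxGenEigenspace ((q ^ k)⁻¹ * α) :=
  mem_gen (π := N ^ k) (nil_semi hq h k) hx

theorem lift_nil [IsAlgClosed E] [FiniteDimensional E X] (hq : q ≠ 0) (h : N * Φ = q • (Φ * N))
    (k : ℕ) {β : E} {x : X} (hx : (N ^ k) x ∈ Φ.maxGenEigenspace β) :
    ∃ x' ∈ Φ.maxGenEigenspace (q ^ k * β), (N ^ k) x' = (N ^ k) x := by
  have h1 := lift_gen (π := N ^ k) (inv_ne_zero (pow_ne_zero k hq)) (nil_semi hq h k) hx
  rwa [inv_inv] at h1

/-- `N` lowers the weights, and a vector killed by `N ^ (k + 1)` has weight at most `w + k`. -/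
def Star (ι : E →+* ℂ) (p : ℕ) (w : ℤ) (Φ N : End E X) : Prop :=
  ∀ (α : E) (x : X) (k : ℕ), x ≠ 0 → Φ x = α • x → (N ^ (k + 1)) x = 0 →
    ∃ a : ℤ, a ≤ w + k ∧ ‖ι α‖ ^ 2 = (p : ℝ) ^ a

theorem Star.gen {ι : E →+* ℂ} {p : ℕ} {w : ℤ} (hs : Star ι p w Φ N) (h : N * Φ = q • (Φ * N))
    {α : E} {x : X} {k : ℕ} (hx0 : x ≠ 0) (hx : x ∈ Φ.maxGenEigenspace α)
    (hk : (N ^ (k + 1)) x = 0) : ∃ a : ℤ, a ≤ w + k ∧ ‖ι α‖ ^ 2 = (p : ℝ) ^ a := by
  classical
  rw [mem_maxGenEigenspace] at hx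
  have h1 : Nat.find hx ≠ 0 := by
    intro h0
    have h2 := Nat.find_spec hx
    rw [h0, pow_zero, Module.End.one_apply] at h2
    exact hx0 h2
  obtain ⟨n, hn⟩ := Nat.exists_eq_succ_of_ne_zero h1
  have h2 : ((Φ - α • (1 : End E X)) ^ (n + 1)) x = 0 := by
    have := Nat.find_spec hx
    rwa [hn] at this
  have h3 : ((Φ - α • (1 : End E X)) ^ n) x ≠ 0 := by
    apply Nat.find_min hx
    omega
  refine hs α (((Φ - α • (1 : End E X)) ^ n) x) k h3 ?_ ?_
  · rw [pow_succ', Module.End.mul_apply, LinearMap.sub_apply, LinearMap.smul_apply,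
      Module.End.one_apply, sub_eq_zero] at h2
    exact h2
  · have h4 : ∀ y, (N ^ (k + 1)) ((Φ - α • (1 : End E X)) y) =
        ((q ^ (k + 1)) • Φ - α • (1 : End E X)) ((N ^ (k + 1)) y) := by
      intro y
      rw [LinearMap.sub_apply, LinearMap.sub_apply, map_sub, nil_pow h, LinearMap.smul_apply,
        LinearMap.smul_apply, LinearMap.smul_apply, Module.End.one_apply, Module.End.one_apply,
        map_smul]
    have h5 : ∀ m y, (N ^ (k + 1)) (((Φ - α • (1 : End E X)) ^ m) y) =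
        (((q ^ (k + 1)) • Φ - α • (1 : End E X)) ^ m) ((N ^ (k + 1)) y) := by
      intro m
      induction m with
      | zero => intro y; simp
      | succ m ih =>
        intro y
        rw [pow_succ (Φ - α • (1 : End E X)) m, Module.End.mul_apply, ih, h4,
          pow_succ ((q ^ (k + 1)) • Φ - α • (1 : End E X)) m, Module.End.mul_apply]
    rw [h5, hk, map_zero]

theorem Star.mixed {ι : E →+* ℂ} {p : ℕ} {w : ℤ} (hs : Star ι p w Φ N) (hN : IsNilpotent N)
    {α : E} {x : X} (hx0 : x ≠ 0) (hx : Φ x = α • x) : ∃ a : ℤ, ‖ι α‖ ^ 2 = (p : ℝ) ^ a := by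
  obtain ⟨n, hn⟩ := hN
  obtain ⟨a, -, ha⟩ := hs α x n hx0 hx (by rw [pow_succ, hn, zero_mul, LinearMap.zero_apply])
  exact ⟨a, ha⟩

/-- the condition is inherited by subobjects -/
theorem Star.sub {Y : Type*} [AddCommGroup Y] [Module E Y] {Φ' N' : End E Y} {ι : E →+* ℂ}
    {p : ℕ} {w : ℤ} (hs : Star ι p w Φ N) (i : Y →ₗ[E] X) (hi : Function.Injective i)
    (hΦ : ∀ y, i (Φ' y) = Φ (i y)) (hN : ∀ y, i (N' y) = N (i y)) : Star ι p w Φ' N' := by
  intro α y k hy0 hy hk
  have h1 : ∀ m y, i ((N' ^ m) y) = (N ^ m) (i y) := by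
    intro m
    induction m with
    | zero => intro y; simp
    | succ m ih =>
      intro y
      rw [pow_succ, Module.End.mul_apply, ih, hN, pow_succ, Module.End.mul_apply]
  refine hs α (i y) k (fun h => hy0 (hi (by rw [h, map_zero]))) ?_ ?_
  · rw [← hΦ, hy, map_smul]
  · rw [← h1, hk, map_zero]

end nil

section count

variable {E : Type*} [Field E] [IsAlgClosed E]

open scoped Classical in
/-- the number of elements of weight `a` -/
noncomputable def cnt (ι : E →+* ℂ) (p : ℕ) (R : Multiset E) (a : ℤ) : ℕ :=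
  Multiset.card (R.filter fun α => ‖ι α‖ ^ 2 = (p : ℝ) ^ a)

/-- the eigenvalues with multiplicities -/
noncomputable def ev {X : Type*} [AddCommGroup X] [Module E X] [FiniteDimensional E X]
    (Φ : End E X) : Multiset E := Φ.charpoly.roots

open scoped Classical in
theorem count_ev {X : Type*} [AddCommGroup X] [Module E X] [FiniteDimensional E X]
    (Φ : End E X) (α : E) : (ev Φ).count α = finrank E (Φ.maxGenEigenspace α) := by
  rw [LinearMap.finrank_maxGenEigenspace_eq, ev, Polynomial.count_roots]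

theorem card_ev {X : Type*} [AddCommGroup X] [Module E X] [FiniteDimensional E X]
    (Φ : End E X) : Multiset.card (ev Φ) = finrank E X := by
  rw [ev, ← (IsAlgClosed.splits _ : Φ.charpoly.Splits).natDegree_eq_card_roots,
    LinearMap.charpoly_natDegree]

open scoped Classical in
theorem card_filter_le {R R' : Multiset E} {P P' : E → Prop} {f : E → E}
    (hf : Function.Injective f) (hP : ∀ α, P α → P' (f α))
    (h : ∀ α, P α → R.count α ≤ R'.count (f α)) :
    Multiset.card (R.filter P) ≤ Multiset.card (R'.filter P') := by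
  rw [← Multiset.card_map f]
  apply Multiset.card_le_card
  rw [Multiset.le_iff_count]
  intro β
  by_cases hβ : ∃ α, f α = β
  · obtain ⟨α, rfl⟩ := hβ
    rw [Multiset.count_map_eq_count' f _ hf]
    by_cases hα : P α
    · rw [Multiset.count_filter_of_pos hα, Multiset.count_filter_of_pos (hP α hα)]
      exact h α hα
    · rw [Multiset.count_filter_of_neg hα]
      exact Nat.zero_le _
  · rw [Multiset.count_eq_zero_of_notMem]
    · exact Nat.zero_le _
    · intro h1
      obtain ⟨α, -, h2⟩ := Multiset.mem_map.1 h1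
      exact hβ ⟨α, h2⟩

end count

end Pool.Agent.Y126.BP
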