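import Pool.Agent.Y126.BP.Det
import Pool.Agent.Y142.Rel

/-!
# Stable isotropic subspaces at a place with monodromy
-/

set_option autoImplicit false
set_option linter.unusedSectionVars false

namespace Pool.Agent.Y126.BP

open Module Module.End Polynomial TensorProduct Pool.Agent.Y142

section poly

variable {F : Type*} [Field F] [Infinite F] {V : Type*} [AddCommGroup V] [Module F V]
  [FiniteDimensional F V]

theorem charpoly_surj {V' : Type*} [AddCommGroup V'] [Module F V'] [FiniteDimensional F V']
    {e : V →ₗ[F] V} {e' : V' →ₗ[F] V'} (π : V →ₗ[F] V') (hπ : Function.Surjective π)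
    (hc : ∀ x, π (e x) = e' (π x)) {W : Submodule F V} (hW : LinearMap.ker π = W)
    (he : W ≤ W.comap e) : e.charpoly = (e.restrict he).charpoly * e'.charpoly := by
  subst hW
  rw [charpoly_eq_mul he]
  congr 1
  symm
  rw [← LinearEquiv.charpoly_conj (π.quotKerEquivOfSurjective hπ)]
  congr 1
  apply LinearMap.ext
  intro y
  obtain ⟨x, rfl⟩ := hπ y
  rw [LinearEquiv.conj_apply_apply]
  have h2 : (π.quotKerEquivOfSurjective hπ).symm (π x) = (LinearMap.ker π).mkQ x := by
    rw [LinearEquiv.symm_apply_eq]
    rfl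
  rw [h2, Submodule.mkQ_apply, Submodule.mapQ_apply]
  exact (hc x).symm

variable {B : LinearMap.BilinForm F V} {e : V →ₗ[F] V} {s : F} {W : Submodule F V}

theorem charpoly_orth (hB : B.Nondegenerate) (hs : s ≠ 0)
    (he : ∀ x y, B (e x) (e y) = s * B x y) (hW : W ≤ W.comap e)
    (hY : B.orthogonal W ≤ (B.orthogonal W).comap e) :
    e.charpoly = (e.restrict hY).charpoly * dualPoly s (e.restrict hW).charpoly := by
  have hinj : Function.Injective (e.restrict hW) := by
    intro x y hxy
    apply Subtype.ext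
    apply injective_of_similitude hB hs he
    exact congrArg Subtype.val hxy
  let eW : W ≃ₗ[F] W := LinearEquiv.ofInjectiveEndo (e.restrict hW) hinj
  have heW : (eW : W →ₗ[F] W) = e.restrict hW := by
    apply LinearMap.ext; intro x; rfl
  rw [← heW, ← charpoly_dual eW hs]
  let Φ : V →ₗ[F] Dual F W := (W.subtype.dualMap).comp (LinearMap.flip B)
  have hΦ : ∀ v (w : W), Φ v w = B w v := fun v w => rfl
  have hker : LinearMap.ker Φ = B.orthogonal W := by
    ext v
    rw [LinearMap.mem_ker]
    constructor
    · intro hv x hx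
      have h1 := LinearMap.congr_fun hv ⟨x, hx⟩
      rw [hΦ] at h1
      exact h1
    · intro hv
      apply LinearMap.ext
      intro w
      rw [hΦ]
      exact hv w w.2
  have hΦs : Function.Surjective Φ := by
    have h1 : Function.Surjective (W.subtype.dualMap) :=
      LinearMap.dualMap_surjective_of_injective W.subtype_injective
    have h2 : Function.Surjective (LinearMap.flip B) := by
      have h3 : Function.Injective (LinearMap.flip B) := by
        rw [← LinearMap.ker_eq_bot, LinearMap.ker_eq_bot']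
        intro x hx
        apply hB.2
        intro y
        exact LinearMap.congr_fun hx y
      exact (LinearMap.injective_iff_surjective_of_finrank_eq_finrank
        (Subspace.dual_finrank_eq).symm).1 h3
    exact h1.comp h2
  have hΦc : ∀ v, Φ (e v) = (s • (eW.symm : W →ₗ[F] W).dualMap) (Φ v) := by
    intro v
    apply LinearMap.ext
    intro w
    obtain ⟨w, rfl⟩ := eW.surjective w
    have h1 : Φ (e v) (eW w) = B (e w) (e v) := rfl
    rw [h1, he]
    simp only [LinearMap.smul_apply, LinearMap.dualMap_apply', LinearMap.comp_apply,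
      LinearEquiv.coe_coe, LinearEquiv.symm_apply_apply, smul_eq_mul]
    rw [hΦ]
  exact charpoly_surj Φ hΦs hΦc hker hY

variable {Ω : Type*} [Field Ω] [Algebra F Ω] [IsAlgClosed Ω]

theorem ev_baseChange (e : V →ₗ[F] V) : ev (e.baseChange Ω) = e.charpoly.aroots Ω := by
  rw [ev, LinearMap.charpoly_baseChange, aroots_def]

theorem ev_orth (hB : B.Nondegenerate) (hs : s ≠ 0)
    (he : ∀ x y, B (e x) (e y) = s * B x y) (hW : W ≤ W.comap e)
    (hY : B.orthogonal W ≤ (B.orthogonal W).comap e) :
    ev (e.baseChange Ω) = ev ((e.restrict hY).baseChange Ω) +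
      (ev ((e.restrict hW).baseChange Ω)).map fun α => algebraMap F Ω s / α := by
  have hinj : Function.Injective (e.restrict hW) := by
    intro x y hxy
    apply Subtype.ext
    apply injective_of_similitude hB hs he
    exact congrArg Subtype.val hxy
  have h0 : (e.restrict hW).charpoly.eval 0 ≠ 0 := by
    rw [LinearMap.eval_charpoly, map_zero, zero_sub]
    let eW : W ≃ₗ[F] W := LinearEquiv.ofInjectiveEndo (e.restrict hW) hinj
    have heW : (eW : W →ₗ[F] W) = e.restrict hW := by
      apply LinearMap.ext; intro x; rfl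
    have h3 : -(e.restrict hW) = ((-1 : F) • (eW : W →ₗ[F] W)) := by
      rw [heW]
      exact (neg_one_smul F (e.restrict hW)).symm
    rw [h3, LinearMap.det_smul]
    exact mul_ne_zero (pow_ne_zero _ (by simp)) (LinearEquiv.isUnit_det' eW).ne_zero
  have h1 := aroots_dualPoly (Ω := Ω) hs (LinearMap.charpoly_monic (e.restrict hW)) h0
  have h2 := charpoly_orth hB hs he hW hY
  rw [ev_baseChange, ev_baseChange, ev_baseChange, ← h1]
  have h3 : e.charpoly ≠ 0 := (LinearMap.charpoly_monic e).ne_zero
  rw [h2] at h3 ⊢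
  exact aroots_mul h3

end poly

section base

variable {F : Type*} [Field F] {Ω : Type*} [Field Ω] [Algebra F Ω]
  {V : Type*} [AddCommGroup V] [Module F V] [FiniteDimensional F V]
  {V' : Type*} [AddCommGroup V'] [Module F V']

theorem baseChange_inj {f : V' →ₗ[F] V} (hf : Function.Injective f) :
    Function.Injective (f.baseChange Ω) :=
  Module.Flat.lTensor_preserves_injective_linearMap (M := Ω) f hf

theorem baseChange_comm {f : V' →ₗ[F] V} {a : End F V'} {b : End F V}
    (h : ∀ x, f (a x) = b (f x)) (y : Ω ⊗[F] V') :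
    f.baseChange Ω (a.baseChange Ω y) = b.baseChange Ω (f.baseChange Ω y) := by
  have h1 : f.comp a = b.comp f := LinearMap.ext h
  rw [← LinearMap.comp_apply, ← LinearMap.comp_apply, ← LinearMap.baseChange_comp,
    ← LinearMap.baseChange_comp, h1]

theorem finrank_range_baseChange (f : End F V) :
    finrank Ω (LinearMap.range (f.baseChange Ω)) = finrank F (LinearMap.range f) := by
  have h1 : f.baseChange Ω = ((LinearMap.range f).subtype.baseChange Ω).comp
      (f.rangeRestrict.baseChange Ω) := by
    rw [← LinearMap.baseChange_comp]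
    rfl
  rw [h1, LinearMap.range_comp_of_range_eq_top]
  · rw [LinearMap.finrank_range_of_inj (baseChange_inj (Submodule.subtype_injective _)),
      Module.finrank_baseChange]
  · rw [LinearMap.range_eq_top]
    exact LinearMap.baseChange_surjective Ω f.surjective_rangeRestrict

theorem baseChange_rel {Φ N : End F V} {p : ℕ} (h : N * Φ = (p : F) • (Φ * N)) :
    N.baseChange Ω * Φ.baseChange Ω = (p : Ω) • (Φ.baseChange Ω * N.baseChange Ω) := by
  rw [← LinearMap.baseChange_mul, h, LinearMap.baseChange_smul, LinearMap.baseChange_mul]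
  apply LinearMap.ext
  intro x
  rw [LinearMap.smul_apply, LinearMap.smul_apply, ← algebraMap_smul Ω (p : F), map_natCast]

theorem baseChange_nil {N : End F V} (h : IsNilpotent N) : IsNilpotent (N.baseChange Ω) := by
  obtain ⟨n, hn⟩ := h
  refine ⟨n, ?_⟩
  rw [← LinearMap.baseChange_pow, hn]
  exact LinearMap.baseChange_zero

end base

section main

variable {F : Type*} [Field F] [CharZero F] {Ω : Type*} [Field Ω] [Algebra F Ω] [IsAlgClosed Ω]
  [CharZero Ω] {ι : Ω →+* ℂ} {p : ℕ} {w : ℤ}
  {V : Type*} [AddCommGroup V] [Module F V] [FiniteDimensional F V]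
  {B : LinearMap.BilinForm F V} {Φ N : End F V} {U : Submodule F V}

theorem cnt_add (R R' : Multiset Ω) (a : ℤ) : cnt ι p (R + R') a = cnt ι p R a + cnt ι p R' a := by
  classical
  rw [cnt, Multiset.filter_add, Multiset.card_add]
  rfl

theorem cnt_dual (hp : 1 < p) (R : Multiset Ω) (a : ℤ) {s : Ω} (hs : ‖ι s‖ ^ 2 = (p : ℝ) ^ (2 * w)) :
    cnt ι p (R.map fun α => s / α) a = cnt ι p R (2 * w - a) := by
  classical
  have hp0 : (p : ℝ) ≠ 0 := by exact_mod_cast (by omega : p ≠ 0)
  have hpa : ∀ a : ℤ, (p : ℝ) ^ a ≠ 0 := fun a => zpow_ne_zero _ hp0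
  rw [cnt, Multiset.filter_map, Multiset.card_map, cnt]
  congr 1
  apply Multiset.filter_congr
  intro α _
  rw [Function.comp_apply, map_div₀, norm_div, div_pow, hs, zpow_sub₀ hp0]
  by_cases h0 : ‖ι α‖ ^ 2 = 0
  · rw [h0, div_zero]
    constructor
    · intro h1
      exact absurd h1.symm (hpa a)
    · intro h1
      exact absurd h1.symm (div_ne_zero (hpa _) (hpa _))
  · rw [div_eq_iff h0, eq_div_iff (hpa a)]
    constructor <;> intro h1 <;> linarith

/-- **Stable isotropic subspaces at a place with monodromy.** -/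
theorem local_main (hp : 1 < p) (hB : B.Nondegenerate)
    (hΦ : ∀ x y, B (Φ x) (Φ y) = (p : F) ^ w * B x y) (h : N * Φ = (p : F) • (Φ * N))
    (hN : IsNilpotent N) (hs : Star ι p w (Φ.baseChange Ω) (N.baseChange Ω))
    (hU : U ≤ U.comap Φ) (hUN : U ≤ U.comap N) (hY : B.orthogonal U ≤ (B.orthogonal U).comap Φ)
    (hYN : B.orthogonal U ≤ (B.orthogonal U).comap N) (hiso : U ≤ B.orthogonal U) :
    ∃ T : ℤ, ‖ι (algebraMap F Ω (LinearMap.det (Φ.restrict hU)))‖ ^ 2 = (p : ℝ) ^ T ∧
      T ≤ w * finrank F U ∧ (T = w * finrank F U → ∃ b : ℕ → ℕ,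
        (∀ j, 2 * b (j + 1) + 2 * finrank F (LinearMap.range (N ^ (j + 1))) ≤
          finrank F (LinearMap.range (N ^ j)) + finrank F (LinearMap.range (N ^ (j + 2)))) ∧
        ∑ j ∈ Finset.range (finrank F V + 1), j * b j = finrank F U) := by
  have hinf : Infinite F := inferInstance
  have hp0 : (p : F) ≠ 0 := by exact_mod_cast (by omega : p ≠ 0)
  have hsw : (p : F) ^ w ≠ 0 := zpow_ne_zero _ hp0
  have hsn : ‖ι (algebraMap F Ω ((p : F) ^ w))‖ ^ 2 = (p : ℝ) ^ (2 * w) := by
    rw [map_zpow₀, map_natCast, map_zpow₀, map_natCast, norm_zpow, Complex.norm_natCast,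
      ← zpow_natCast, ← zpow_mul]
    congr 1
    push_cast
    ring
  have hΩ := baseChange_rel (Ω := Ω) h
  have hNΩ := baseChange_nil (Ω := Ω) hN
  -- the subobject `U`
  have hYN' : ∀ x ∈ B.orthogonal U, N x ∈ B.orthogonal U := hYN
  have hUrel : (N.restrict hUN) * (Φ.restrict hU) = (p : F) • ((Φ.restrict hU) * (N.restrict hUN)) := by
    apply LinearMap.ext
    intro x
    apply Subtype.ext
    exact LinearMap.congr_fun h (x : V)
  have hYrel : (N.restrict hYN') * (Φ.restrict hY) = (p : F) • ((Φ.restrict hY) * (N.restrict hYN')) := by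
    apply LinearMap.ext
    intro x
    apply Subtype.ext
    exact LinearMap.congr_fun h (x : V)
  have hUnil : IsNilpotent (N.restrict hUN) := by
    obtain ⟨n, hn⟩ := hN
    refine ⟨n, ?_⟩
    apply LinearMap.ext
    intro x
    apply Subtype.ext
    rw [Module.End.pow_restrict]
    have := LinearMap.congr_fun hn (x : V)
    exact this
  have hsU : Star ι p w ((Φ.restrict hU).baseChange Ω) ((N.restrict hUN).baseChange Ω) :=
    hs.sub (U.subtype.baseChange Ω) (baseChange_inj (Submodule.subtype_injective _))
      (baseChange_comm fun x => rfl) (baseChange_comm fun x => rfl)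
  have hsY : Star ι p w ((Φ.restrict hY).baseChange Ω) ((N.restrict hYN').baseChange Ω) :=
    hs.sub ((B.orthogonal U).subtype.baseChange Ω) (baseChange_inj (Submodule.subtype_injective _))
      (baseChange_comm fun x => rfl) (baseChange_comm fun x => rfl)
  obtain ⟨T, hT1, hT2, hT3⟩ := hsU.det hp (baseChange_rel hUrel) (baseChange_nil hUnil)
  rw [Module.finrank_baseChange] at hT2 hT3
  rw [LinearMap.det_baseChange] at hT1
  refine ⟨T, hT1, hT2, fun hT => ?_⟩
  have hbU := hT3 hT
  -- counts
  have hcV : ∀ a, cnt ι p (ev (Φ.baseChange Ω)) a =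
      cnt ι p (ev ((Φ.restrict hY).baseChange Ω)) a +
        cnt ι p (ev ((Φ.restrict hU).baseChange Ω)) (2 * w - a) := by
    intro a
    rw [ev_orth hB hsw hΦ hU hY, cnt_add, cnt_dual hp _ _ hsn]
  have hbV : Bal ι p w (Φ.baseChange Ω) := by
    have hb0 : ∀ x ∈ B.orthogonal (⊤ : Submodule F V), x = 0 := by
      intro x hx
      apply hB.2
      intro y
      exact hx y Submodule.mem_top
    have h1 : ev (Φ.baseChange Ω) =
        (ev (Φ.baseChange Ω)).map fun α => algebraMap F Ω ((p : F) ^ w) / α := by
      have h2 := ev_orth (Ω := Ω) (W := ⊤) hB hsw hΦ (fun x _ => Submodule.mem_top)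
        (fun x hx => by
          rw [hb0 x hx]
          exact Submodule.zero_mem _)
      have h3 : (Φ.restrict (p := (⊤ : Submodule F V)) (q := ⊤)
          (fun x _ => Submodule.mem_top)).charpoly = Φ.charpoly := by
        have h4 : Φ.restrict (p := (⊤ : Submodule F V)) (q := ⊤) (fun x _ => Submodule.mem_top) =
            (Submodule.topEquiv.symm : V ≃ₗ[F] (⊤ : Submodule F V)).conj Φ := by
          apply LinearMap.ext
          intro x
          rfl
        rw [h4, LinearEquiv.charpoly_conj]
      have h5 : ∀ (hh : B.orthogonal ⊤ ≤ (B.orthogonal ⊤).comap Φ),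
          ev ((Φ.restrict hh).baseChange Ω) = 0 := by
        intro hh
        rw [← Multiset.card_eq_zero, card_ev, Module.finrank_baseChange,
          Submodule.finrank_eq_zero, Submodule.eq_bot_iff]
        exact hb0
      rw [h5, zero_add] at h2
      rw [ev_baseChange, ev_baseChange] at h2
      rw [ev_baseChange]
      rw [h3] at h2
      exact h2
    intro a
    nth_rewrite 1 [h1]
    rw [cnt_dual hp _ _ hsn]
    congr 1
    ring
  have hbY : Bal ι p w ((Φ.restrict hY).baseChange Ω) := by
    intro a
    have h1 := hcV (w + a)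
    have h2 := hcV (w - a)
    have h3 := hbV a
    have h4 := hbU a
    rw [show 2 * w - (w + a) = w - a by ring] at h1
    rw [show 2 * w - (w - a) = w + a by ring] at h2
    omega
  -- the blocks
  set u : ℕ → ℕ := fun a => cnt ι p (ev ((Φ.restrict hU).baseChange Ω)) (w + a) with hu
  have hu2 : ∀ a, u (a + 2) ≤ u a := by
    intro a
    have h1 := hsU.cnt_succ hp (baseChange_rel hUrel) a
    rw [hu]
    push_cast
    rwa [← add_assoc]
  have hblocks : ∀ j : ℕ, 2 * (u j - u (j + 2)) + 2 * finrank F (LinearMap.range (N ^ (j + 1))) ≤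
      finrank F (LinearMap.range (N ^ j)) + finrank F (LinearMap.range (N ^ (j + 2))) := by
    intro j
    have h1 := hs.blocks hp hΩ hbV j
    rw [← LinearMap.baseChange_pow, ← LinearMap.baseChange_pow, ← LinearMap.baseChange_pow,
      finrank_range_baseChange, finrank_range_baseChange, finrank_range_baseChange] at h1
    have hUY : ∀ x : U, (x : V) ∈ B.orthogonal U := fun x => hiso x.2
    have h2 := hsY.prim hp (Φ' := (Φ.restrict hU).baseChange Ω)
      (N' := (N.restrict hUN).baseChange Ω) (baseChange_rel hYrel)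
      ((Submodule.inclusion hiso).baseChange Ω)
      (baseChange_inj (Submodule.inclusion_injective hiso))
      (baseChange_comm fun x => rfl) (baseChange_comm fun x => rfl) (baseChange_rel hUrel) hbU j
    have h3 := hcV (w + j)
    have h4 := hcV (w + j + 2)
    have h5 := hbU j
    have h6 := hbU (j + 2)
    rw [show 2 * w - (w + (j : ℤ)) = w - j by ring] at h3
    rw [show 2 * w - (w + (j : ℤ) + 2) = w - (j + 2) by ring] at h4
    rw [← add_assoc] at h6
    have h7 := hu2 j
    have h8 : u (j + 2) = cnt ι p (ev ((Φ.restrict hU).baseChange Ω)) (w + j + 2) := by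
      rw [hu]
      push_cast
      rw [← add_assoc]
    have h9 : u j = cnt ι p (ev ((Φ.restrict hU).baseChange Ω)) (w + j) := rfl
    omega
  refine ⟨fun j => u (j - 1) - u (j + 1), fun j => ?_, ?_⟩
  · have h1 := hblocks j
    simp only [Nat.add_sub_cancel]
    rw [show j + 1 + 1 = j + 2 by ring]
    exact h1
  · have hfin : finrank Ω (Ω ⊗[F] U) = finrank F U := Module.finrank_baseChange
    have hle := Submodule.finrank_le U
    have h1 := card_eq_sum hp hsU (baseChange_rel hUrel) (baseChange_nil hUnil) hbU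
      (D := finrank F V) (by rw [hfin]; exact hle)
    have h2 := sum_blocks (fun a => (u a : ℤ)) (finrank F V)
    have h3 : u (finrank F V) = 0 :=
      hsU.cnt_zero hp (baseChange_rel hUrel) (baseChange_nil hUnil) (by rw [hfin]; exact hle)
    have h4 : u (finrank F V + 1) = 0 :=
      hsU.cnt_zero hp (baseChange_rel hUrel) (baseChange_nil hUnil) (by rw [hfin]; omega)
    rw [hfin] at h1
    rw [Finset.sum_range_succ', zero_mul, add_zero]
    have h5 : ((∑ k ∈ Finset.range (finrank F V), (k + 1) * (u (k + 1 - 1) - u (k + 1 + 1)) : ℕ) : ℤ) =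
        ∑ j ∈ Finset.range (finrank F V), ((j : ℤ) + 1) * ((u j : ℤ) - (u (j + 2) : ℤ)) := by
      push_cast
      refine Finset.sum_congr rfl fun j _ => ?_
      rw [show j + 1 + 1 = j + 2 by ring, Nat.cast_sub (hu2 j)]
    have h6 : (u 0 : ℤ) = cnt ι p (ev ((Φ.restrict hU).baseChange Ω)) w := by
      rw [hu]
      simp
    simp only [h3, h4, Nat.cast_zero, mul_zero, add_zero] at h2
    have h7 : ((∑ k ∈ Finset.range (finrank F V), (k + 1) * (u (k + 1 - 1) - u (k + 1 + 1)) : ℕ) : ℤ) =
        (finrank F U : ℤ) := by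
      rw [h5, h2, h1, h6]
    exact_mod_cast h7

end main

end Pool.Agent.Y126.BP
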