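import Pool.Agent.Y126.BP.Dist

/-!
# The logarithm of the monodromy
-/

set_option autoImplicit false
set_option linter.unusedSectionVars false

namespace Pool.Agent.Y126.BP

open Module Module.End Polynomial TensorProduct Pool.Agent.Y126.JB Pool.Agent.Y126.MU

variable {F : Type} [Field F] [CharZero F] {V : Type} [AddCommGroup V] [Module F V]
  [FiniteDimensional F V]

theorem lg_stable {u : End F V} {k : ℕ} {U : Submodule F V} (hU : U ≤ U.comap u) :
    U ≤ U.comap (lg F (u - 1) k) := by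
  have h1 : ∀ x ∈ U, (u - 1) x ∈ U := by
    intro x hx
    rw [LinearMap.sub_apply, Module.End.one_apply]
    exact U.sub_mem (hU hx) hx
  have h2 : ∀ (i : ℕ), ∀ x ∈ U, ((u - 1 : End F V) ^ i) x ∈ U := by
    intro i
    induction i with
    | zero => intro x hx; simpa using hx
    | succ i ih =>
      intro x hx
      rw [pow_succ, Module.End.mul_apply]
      exact ih _ (h1 x hx)
  intro x hx
  rw [Submodule.mem_comap, lg, Al, LinearMap.sum_apply]
  refine U.sum_mem fun i _ => ?_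
  rw [LinearMap.smul_apply]
  exact U.smul_mem _ (h2 i x hx)

theorem lg_skew {u : End F V} {k : ℕ} (hu : (u - 1) ^ k = 0) {B : LinearMap.BilinForm F V}
    (hB : ∀ x y, B (u x) (u y) = B x y) (x y : V) :
    B (lg F (u - 1) k x) y = -B x (lg F (u - 1) k y) := by
  have h3 : ∀ (m : ℕ) x y, B ((u ^ m) x) ((u ^ m) y) = B x y := by
    intro m
    induction m with
    | zero => intro x y; rfl
    | succ m ih =>
      intro x y
      rw [pow_succ, Module.End.mul_apply, Module.End.mul_apply, ih, hB]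
  have h1 := lg_kill (Pool.Agent.TH118.SG.bm B) hu (by
    refine Set.infinite_univ.mono fun m _ v => ?_
    change B ((u ^ m) (v 0)) ((u ^ m) (v 1)) = B (v 0) (v 1)
    exact h3 m _ _)
  have h2 := h1 ![x, y]
  rw [Fin.sum_univ_two] at h2
  have h4 : B (lg F (u - 1) k x) y + B x (lg F (u - 1) k y) = 0 := by
    simpa [Pool.Agent.TH118.SG.bm] using h2
  exact eq_neg_of_add_eq_zero_left h4

theorem lg_rel {u φ Φ : End F V} {k q : ℕ} (hu : (u - 1) ^ k = 0) (hφ : φ * u = u ^ q * φ)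
    (h1 : φ * Φ = 1) (h2 : Φ * φ = 1) :
    lg F (u - 1) k * Φ = (q : F) • (Φ * lg F (u - 1) k) := by
  have h3 := lg_frob (K := F) hu hφ
  have h4 := congrArg (fun t => Φ * t * Φ) h3
  beta_reduce at h4
  rw [← mul_assoc, h2, one_mul, mul_smul_comm, smul_mul_assoc, mul_assoc Φ, mul_assoc, h1,
    mul_one] at h4
  exact h4

theorem lg_pow {u : End F V} {k : ℕ} (hu : (u - 1) ^ k = 0) :
    ∃ A C : End F V, A * C = 1 ∧ C * A = 1 ∧ ∀ j : ℕ, (lg F (u - 1) k) ^ j = (u - 1) ^ j * A ^ j ∧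
      (u - 1) ^ j = (lg F (u - 1) k) ^ j * C ^ j ∧
      (lg F (u - 1) k) ^ j = A ^ j * (u - 1) ^ j ∧
      (u - 1) ^ j = C ^ j * (lg F (u - 1) k) ^ j := by
  obtain ⟨A, ⟨⟨a, C, hAC, hCA⟩, hA⟩, hc, hN⟩ := lg_eq (K := F) (u - 1) hu
  simp only at hA
  subst hA
  have hcC : Commute (u - 1) C := by
    have h1 : (u - 1) * C = C * a * ((u - 1) * C) := by rw [hCA, one_mul]
    rw [mul_assoc C, ← mul_assoc a, ← hc.eq, mul_assoc (u - 1), hAC, mul_one] at h1
    exact h1
  have haC : Commute a C := by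
    rw [Commute, SemiconjBy, hAC, hCA]
  refine ⟨a, C, hAC, hCA, fun j => ?_⟩
  have h1 : (lg F (u - 1) k) ^ j = (u - 1) ^ j * a ^ j := by rw [hN, hc.mul_pow]
  have h2 : a ^ j * C ^ j = 1 := by rw [← haC.mul_pow, hAC, one_pow]
  have h3 : C ^ j * a ^ j = 1 := by rw [← haC.symm.mul_pow, hCA, one_pow]
  refine ⟨h1, ?_, ?_, ?_⟩
  · rw [h1, mul_assoc, h2, mul_one]
  · rw [h1, (hc.pow_pow j j).eq]
  · rw [h1, (hc.pow_pow j j).eq, ← mul_assoc, h3, one_mul]

theorem lg_nil {u : End F V} {k : ℕ} (hu : (u - 1) ^ k = 0) : IsNilpotent (lg F (u - 1) k) := by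
  obtain ⟨A, C, -, -, h⟩ := lg_pow hu
  refine ⟨k, ?_⟩
  rw [(h k).1, hu, zero_mul]

theorem lg_range {u : End F V} {k : ℕ} (hu : (u - 1) ^ k = 0) (j : ℕ) :
    LinearMap.range ((lg F (u - 1) k) ^ j) = LinearMap.range ((u - 1) ^ j) := by
  obtain ⟨A, C, -, -, h⟩ := lg_pow hu
  obtain ⟨h1, h2, -, -⟩ := h j
  apply le_antisymm
  · rw [h1, Module.End.mul_eq_comp]
    exact LinearMap.range_comp_le_range _ _
  · rw [h2, Module.End.mul_eq_comp]
    exact LinearMap.range_comp_le_range _ _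

theorem lg_star {Ω : Type*} [Field Ω] [Algebra F Ω] {ι : Ω →+* ℂ} {p : ℕ} {w : ℤ}
    {u Φ : End F V} {k : ℕ} (hu : (u - 1) ^ k = 0)
    (h : Star ι p w (Φ.baseChange Ω) ((u - 1).baseChange Ω)) :
    Star ι p w (Φ.baseChange Ω) ((lg F (u - 1) k).baseChange Ω) := by
  obtain ⟨A, C, -, -, h1⟩ := lg_pow hu
  intro α x m hx0 hx hm
  refine h α x m hx0 hx ?_
  rw [← LinearMap.baseChange_pow] at hm ⊢
  rw [(h1 (m + 1)).2.2.2, LinearMap.baseChange_mul, Module.End.mul_apply, hm, map_zero]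

end Pool.Agent.Y126.BP
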