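import Pool.Agent.Y142.Split

/-!
# The transfer of a character at a Frobenius element of any prime
-/

set_option autoImplicit false
set_option linter.unusedSectionVars false

namespace Pool.Agent.Y126.BP

open NumberField IsDedekindDomain Pool.Agent.W569.FM Pool.Agent.W401.Cheb Pool.Agent.Y142 MulAction
  Subgroup

variable {K : Type} [Field K] [NumberField K]

/-- `σ` acts as `x ↦ x ^ q` modulo a maximal ideal above `v` -/
def FrobQ (v : HeightOneSpectrum (𝓞 K)) (q : ℕ) (σ : GK K) : Prop :=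
  ∃ Q : Ideal (𝓞 (AlgebraicClosure K)), Q.IsMaximal ∧
    Q.comap (algebraMap (𝓞 K) (𝓞 (AlgebraicClosure K))) = v.asIdeal ∧
    ∀ x : 𝓞 (AlgebraicClosure K), σ • x - x ^ q ∈ Q

theorem frob_pow {q : ℕ} {P : Ideal (OO ℚ)} {σ : GF ℚ} (hσ : FrobAt q P σ) (m : ℕ) :
    FrobAt (q ^ m) P (σ ^ m) := by
  induction m with
  | zero =>
    intro x
    rw [pow_zero, one_smul, pow_zero, pow_one, sub_self]
    exact P.zero_mem
  | succ m ih =>
    intro x
    rw [pow_succ', mul_smul, pow_succ, pow_mul]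
    have h1 := hσ (σ ^ m • x)
    have h2 : (σ ^ m • x) ^ q - (x ^ q ^ m) ^ q ∈ P := P.mem_of_dvd (sub_dvd_pow_sub_pow _ _ q)
      (ih x)
    have := P.add_mem h1 h2
    rwa [sub_add_sub_cancel] at this

theorem frobQ_back {τ g : GF ℚ} {p q : ℕ} (hp : p.Prime) {P : Ideal (OO ℚ)} (hP : P.IsMaximal)
    (hpP : (p : OO ℚ) ∈ P) (hg : FrobAt q P g) (h : τ⁻¹ * g * τ ∈ HH ℚ K) :
    FrobQ (vv τ hp hP hpP) q (back ⟨τ⁻¹ * g * τ, h⟩) := by
  refine ⟨QQ τ P, QQ_isMaximal hP, rfl, fun x => ?_⟩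
  rw [mem_QQ, map_sub, map_pow, ioO_back, smul_sub, smul_pow']
  have h1 := hg (τ • ioO K x)
  rw [Subgroup.coe_mk, smul_smul]
  have h2 : τ * (τ⁻¹ * g * τ) = g * τ := by group
  rw [h2, ← smul_smul]
  exact h1

theorem vv_zpow {τ g : GF ℚ} {p : ℕ} {hp : p.Prime} {P : Ideal (OO ℚ)} {hP : P.IsMaximal}
    {hpP : (p : OO ℚ) ∈ P} (hg : FrobAt p P g) (k : ℤ) :
    (vv (g ^ k * τ) hp hP hpP : HeightOneSpectrum (𝓞 K)) = vv τ hp hP hpP := by
  induction k using Int.induction_on with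
  | zero => rw [zpow_zero, one_mul]
  | succ k ih =>
    rw [add_comm, zpow_add, zpow_one, mul_assoc, vv_mul_left hg, ih]
  | pred k ih =>
    rw [← ih, show -(k : ℤ) = 1 + (-(k : ℤ) - 1) by ring, zpow_add, zpow_one, mul_assoc,
      vv_mul_left hg, show 1 + (-(k : ℤ) - 1) - 1 = -(k : ℤ) - 1 by ring]

/-- **The transfer at a Frobenius element.** -/
theorem exists_cycles (ℓ : ℕ) [Fact ℓ.Prime] {p : ℕ} (hp : p.Prime) :
    ∃ (I : Type) (_ : Fintype I) (f : I → ℕ) (v : I → HeightOneSpectrum (𝓞 K)) (σ : I → GK K)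
      (g : GF ℚ), (∀ i, 0 < f i) ∧ ∑ i, f i = Module.finrank ℚ K ∧
      (∀ i, (p : 𝓞 K) ∈ (v i).asIdeal ∧ FrobQ (v i) (p ^ f i) (σ i)) ∧
      (∀ w : HeightOneSpectrum (𝓞 K), (p : 𝓞 K) ∈ w.asIdeal → ∃ i, v i = w) ∧
      ∀ δ : GK K →* ℚ_[ℓ]ˣ, trans δ g = ∏ i, δ (σ i) := by
  classical
  have hfin : Finite (GF ℚ ⧸ HH ℚ K) := Subgroup.finite_quotient_of_finiteIndex
  obtain ⟨⟨P, hP, hpP, g, hg⟩, -⟩ := sFROB p hp
  let I := Quotient (orbitRel (zpowers g) (GF ℚ ⧸ HH ℚ K))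
  have hI : Finite I := Quotient.finite _
  let _ : Fintype I := Fintype.ofFinite I
  let f : I → ℕ := fun q => Function.minimalPeriod (g • ·) q.out
  have hmem : ∀ q : I, q.out.out⁻¹ * g ^ f q * q.out.out ∈ HH ℚ K := fun q =>
    QuotientGroup.out_conj_pow_minimalPeriod_mem (HH ℚ K) g q.out
  refine ⟨I, inferInstance, f, fun q => vv q.out.out hp hP hpP, fun q => back ⟨_, hmem q⟩, g,
    ?_, ?_, ?_, ?_, ?_⟩
  · intro q
    have h1 : NeZero (Function.minimalPeriod (g • ·) q.out) := inferInstance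
    exact Nat.pos_of_ne_zero h1.out
  · rw [← index_HH (k := ℚ) (K := K)]
    exact (index_eq_sum_minimalPeriod (HH ℚ K) g).symm
  · intro q
    exact ⟨natCast_mem_vv, frobQ_back hp hP hpP (frob_pow hg _) (hmem q)⟩
  · intro w hw
    obtain ⟨τ, hτ⟩ := vv_surjective hp hP hpP w hw
    let c : GF ℚ ⧸ HH ℚ K := (τ : GF ℚ)
    refine ⟨Quotient.mk _ c, ?_⟩
    have h1 : orbitRel (zpowers g) (GF ℚ ⧸ HH ℚ K)
        (Quotient.mk (orbitRel (zpowers g) (GF ℚ ⧸ HH ℚ K)) c).out c := Quotient.mk_out c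
    rw [orbitRel_apply] at h1
    obtain ⟨⟨_, k, rfl⟩, hk⟩ := h1
    have h2 : ((g ^ k * τ : GF ℚ) : GF ℚ ⧸ HH ℚ K) =
        (Quotient.mk (orbitRel (zpowers g) (GF ℚ ⧸ HH ℚ K)) c).out := hk
    have h3 : ((Quotient.mk (orbitRel (zpowers g) (GF ℚ ⧸ HH ℚ K)) c).out.out : GF ℚ ⧸ HH ℚ K) =
        ((g ^ k * τ : GF ℚ) : GF ℚ ⧸ HH ℚ K) := by
      rw [h2]
      exact Quotient.out_eq _
    rw [← hτ, ← vv_zpow (K := K) (τ := τ) hg k]
    rw [QuotientGroup.eq] at h3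
    have h4 := vv_mul_right (K := K) (τ := (Quotient.mk (orbitRel (zpowers g)
      (GF ℚ ⧸ HH ℚ K)) c).out.out) (hq := hp) (hP := hP) (hqP := hpP) h3
    rw [mul_inv_cancel_left] at h4
    exact h4.symm
  · intro δ
    exact MonoidHom.transfer_eq_prod_quotient_orbitRel_zpowers_quot (δ.comp (back (k := ℚ) (K := K))) g

end Pool.Agent.Y126.BP
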