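import Pool.Agent.Y126.BP.Log
import Pool.Agent.Y126.BP.Local
import Pool.Agent.Y126.BP.Tran
import Pool.Agent.Y142.MainA

/-!
# Semisimplicity from primes of bad reduction
-/

set_option autoImplicit false
set_option linter.unusedSectionVars false

namespace Pool.Agent.Y126.BP

open NumberField IsDedekindDomain Polynomial Module Module.End TensorProduct Pool.Agent.Y142
open Pool.Agent.W401.Cheb
open Pool.Agent.W569.FM (GF)

variable {K : Type} [Field K] [NumberField K] {ℓ : ℕ} [hℓ : Fact ℓ.Prime]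
  {Γ : Type} [Group Γ] {V : Type} [AddCommGroup V] [Module ℚ_[ℓ] V] [FiniteDimensional ℚ_[ℓ] V]

/-- the local condition at a place: at most `m j` Jordan blocks of size `j` -/
def LocAt (θ : GK K →* Γ) (ρ : Γ →* (V →ₗ[ℚ_[ℓ]] V)) (χ : Γ → ℚ_[ℓ]) (w : ℕ)
    (ι : AlgebraicClosure ℚ_[ℓ] →+* ℂ) (v : HeightOneSpectrum (𝓞 K)) (m : ℕ → ℕ) : Prop :=
  ∀ (q : ℕ) (σ : GK K), 1 < q → FrobQ v q σ → ∃ N : End ℚ_[ℓ] V, IsNilpotent N ∧
    N * ρ (θ σ⁻¹) = (q : ℚ_[ℓ]) • (ρ (θ σ⁻¹) * N) ∧ χ (θ σ⁻¹) = (q : ℚ_[ℓ]) ^ w ∧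
    Star ι q (w : ℤ) ((ρ (θ σ⁻¹)).baseChange (AlgebraicClosure ℚ_[ℓ]))
      (N.baseChange (AlgebraicClosure ℚ_[ℓ])) ∧
    (∀ U : Submodule ℚ_[ℓ] V, (∀ g, U ≤ U.comap (ρ g)) → U ≤ U.comap N) ∧
    ∀ j, finrank ℚ_[ℓ] (LinearMap.range (N ^ j)) + finrank ℚ_[ℓ] (LinearMap.range (N ^ (j + 2))) ≤
      2 * finrank ℚ_[ℓ] (LinearMap.range (N ^ (j + 1))) + m (j + 1)

theorem sum_eq_of_le {I : Type} [Fintype I] {f : I → ℕ} (hf : ∀ i, 0 < f i) {T : I → ℤ} {c : ℤ}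
    (hT : ∀ i, T i ≤ c) (h : ∑ i, (f i : ℤ) * T i = c * ∑ i, (f i : ℤ)) : ∀ i, T i = c := by
  classical
  have h1 : ∑ i, (f i : ℤ) * (c - T i) = 0 := by
    have h2 : ∑ i, (f i : ℤ) * (c - T i) = c * ∑ i, (f i : ℤ) - ∑ i, (f i : ℤ) * T i := by
      rw [Finset.mul_sum, ← Finset.sum_sub_distrib]
      refine Finset.sum_congr rfl fun i _ => ?_
      ring
    rw [h2, h, sub_self]
  have h3 := (Finset.sum_eq_zero_iff_of_nonneg (fun i _ => mul_nonneg (by positivity)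
    (sub_nonneg.2 (hT i)))).1 h1
  intro i
  have h4 := h3 i (Finset.mem_univ i)
  have h5 : (f i : ℤ) ≠ 0 := by exact_mod_cast (hf i).ne'
  have h6 := (mul_eq_zero.1 h4).resolve_left h5
  linarith

theorem prod_zpow_sum {I : Type} (s : Finset I) {a : ℝ} (ha : a ≠ 0) (g : I → ℤ) :
    ∏ i ∈ s, a ^ g i = a ^ ∑ i ∈ s, g i := by
  classical
  induction s using Finset.induction_on with
  | empty => simp
  | insert i s hi ih => rw [Finset.prod_insert hi, Finset.sum_insert hi, ih, zpow_add₀ ha]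

theorem bad_core (θ : GK K →* Γ) (ρ : Γ →* (V →ₗ[ℚ_[ℓ]] V))
    (hc : ∀ (φ : Dual ℚ_[ℓ] V) (x : V), Continuous fun g => φ (ρ (θ g) x))
    (B : LinearMap.BilinForm ℚ_[ℓ] V) (hB : B.Nondegenerate)
    (χ : Γ → ℚ_[ℓ]) (hχ : ∀ g x y, B (ρ g x) (ρ g y) = χ g * B x y)
    {w : ℕ} (hw : 0 < w) {S : Set (HeightOneSpectrum (𝓞 K))} (hS : S.Finite)
    (P : HeightOneSpectrum (𝓞 K) → ℤ[X])
    (hP : ∀ v ∉ S, (P v).Monic ∧
      (∀ z : ℂ, aeval z (P v) = 0 → ‖z‖ ^ 2 = (Ideal.absNorm v.asIdeal : ℝ) ^ w) ∧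
      ∀ σ : GK K, IsFrob v σ → (ρ (θ σ⁻¹)).charpoly = (P v).map (algebraMap ℤ ℚ_[ℓ]) ∧
        χ (θ σ⁻¹) = (Ideal.absNorm v.asIdeal : ℚ_[ℓ]) ^ w)
    (ι : AlgebraicClosure ℚ_[ℓ] →+* ℂ)
    (W : Submodule ℚ_[ℓ] V) (hW : ∀ g, W ≤ W.comap (ρ g)) (hiso : W ≤ B.orthogonal W)
    (hW0 : W ≠ ⊥) {p : ℕ} (hp : p.Prime) (m : HeightOneSpectrum (𝓞 K) → ℕ → ℕ)
    (hloc : ∀ v, (p : 𝓞 K) ∈ v.asIdeal → LocAt θ ρ χ w ι v (m v))
    (v₀ : HeightOneSpectrum (𝓞 K)) (hv₀ : (p : 𝓞 K) ∈ v₀.asIdeal) :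
    ∃ b : ℕ → ℕ, (∀ j, 2 * b (j + 1) ≤ m v₀ (j + 1)) ∧
      ∑ j ∈ Finset.range (finrank ℚ_[ℓ] V + 1), j * b j = finrank ℚ_[ℓ] W := by
  classical
  set d := finrank ℚ_[ℓ] W with hd
  -- the character `χ`
  obtain ⟨x₀, hx₀W, hx₀⟩ := W.ne_bot_iff.1 hW0
  obtain ⟨y₀, hxy⟩ : ∃ y, B x₀ y ≠ 0 := by
    by_contra hcon
    push Not at hcon
    exact hx₀ (hB.1 x₀ hcon)
  let χ' : GK K →* ℚ_[ℓ] :=
    { toFun := fun g => χ (θ g)
      map_one' := by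
        have h1 := hχ 1 x₀ y₀
        rw [map_one, Module.End.one_apply, Module.End.one_apply] at h1
        rw [map_one]
        exact mul_right_cancel₀ hxy (by rw [← h1, one_mul])
      map_mul' := by
        intro g h
        have h1 := hχ (θ g * θ h) x₀ y₀
        rw [map_mul, Module.End.mul_apply, Module.End.mul_apply, hχ, hχ, ← mul_assoc] at h1
        rw [map_mul]
        exact (mul_right_cancel₀ hxy h1).symm }
  have hχc : Continuous fun g => (χ'.toHomUnits g : ℚ_[ℓ]) := by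
    have h1 : (fun g => (χ'.toHomUnits g : ℚ_[ℓ])) =
        fun g => B (ρ (θ g) x₀) (ρ (θ g) y₀) * (B x₀ y₀)⁻¹ := by
      funext g
      rw [hχ, mul_assoc, mul_inv_cancel₀ hxy, mul_one]
      rfl
    rw [h1]
    exact (continuous_bilin (ρ.comp θ) B hc x₀ y₀).mul continuous_const
  have hWθ : ∀ g, W ≤ W.comap ((ρ.comp θ) g) := fun g => hW (θ g)
  have hδc := continuous_detRep (ρ.comp θ) W hWθ hc
  have hgood : ∀ v ∉ S, ∀ σ : GK K, IsFrob v σ →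
      (χ'.toHomUnits σ⁻¹ : ℚ_[ℓ]) = (Ideal.absNorm v.asIdeal : ℚ_[ℓ]) ^ w ∧
      Pure ((Ideal.absNorm v.asIdeal : ℝ) ^ (w * d)) (detRep (ρ.comp θ) W hWθ σ⁻¹ : ℚ_[ℓ]) := by
    intro v hv σ hσ
    obtain ⟨h1, h2, h3⟩ := hP v hv
    refine ⟨(h3 σ hσ).2, ?_⟩
    have h4 : (((ρ.comp θ) σ⁻¹).restrict (hWθ σ⁻¹)).charpoly ∣ (P v).map (algebraMap ℤ ℚ_[ℓ]) := by
      rw [← (h3 σ hσ).1]
      exact (dvd_mul_right _ _).trans (dvd_of_eq (charpoly_eq_mul (hWθ σ⁻¹)).symm)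
    have h5 := pure_coeff_zero h1 h2 (LinearMap.charpoly_monic _) h4
    rw [← det_eq_sign_coeff, LinearMap.charpoly_natDegree, ← hd, ← pow_mul] at h5
    exact h5
  obtain ⟨n, hn, hrel⟩ := char_field (detRep (ρ.comp θ) W hWθ) χ'.toHomUnits hδc hχc hw hS hgood
  obtain ⟨I, _, f, v, σ, g, hf, hsum, hv, hall, htr⟩ := exists_cycles (K := K) ℓ hp
  have h1 := hrel g
  rw [htr, htr] at h1
  have h2 : (∏ i, detRep (ρ.comp θ) W hWθ (σ i)⁻¹) ^ (2 * n) =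
      (∏ i, χ'.toHomUnits (σ i)⁻¹) ^ (d * n) := by
    simp only [map_inv, Finset.prod_inv_distrib, inv_pow]
    rw [h1]
  -- orthogonal complement
  have hY : ∀ g, B.orthogonal W ≤ (B.orthogonal W).comap (ρ g) := by
    intro g x hx
    rw [Submodule.mem_comap, LinearMap.BilinForm.mem_orthogonal_iff]
    intro y hy
    have h3 : ρ g (ρ g⁻¹ y) = y := by
      rw [← Module.End.mul_apply, ← map_mul, mul_inv_cancel, map_one, Module.End.one_apply]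
    rw [← h3, hχ]
    have h4 : B (ρ g⁻¹ y) x = 0 := hx _ (hW g⁻¹ hy)
    rw [h4, mul_zero]
  have hq : ∀ i, 1 < p ^ f i := fun i => Nat.one_lt_pow (hf i).ne' hp.one_lt
  have hkey : ∀ i, ∃ T : ℤ, ‖ι (algebraMap ℚ_[ℓ] (AlgebraicClosure ℚ_[ℓ])
      (detRep (ρ.comp θ) W hWθ (σ i)⁻¹ : ℚ_[ℓ]))‖ ^ 2 = ((p ^ f i : ℕ) : ℝ) ^ T ∧
      T ≤ w * d ∧ (χ'.toHomUnits (σ i)⁻¹ : ℚ_[ℓ]) = ((p ^ f i : ℕ) : ℚ_[ℓ]) ^ w ∧
      (T = w * d → ∃ b : ℕ → ℕ, (∀ j, 2 * b (j + 1) ≤ m (v i) (j + 1)) ∧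
      ∑ j ∈ Finset.range (finrank ℚ_[ℓ] V + 1), j * b j = d) := by
    intro i
    obtain ⟨N, hN, hNrel, hfac, hst, hstab, hrk⟩ := hloc (v i) (hv i).1 (p ^ f i) (σ i) (hq i) (hv i).2
    have hΦ : ∀ x y, B (ρ (θ (σ i)⁻¹) x) (ρ (θ (σ i)⁻¹) y) = ((p ^ f i : ℕ) : ℚ_[ℓ]) ^ (w : ℤ) * B x y := by
      intro x y
      rw [hχ, hfac, zpow_natCast]
    obtain ⟨T, hT1, hT2, hT3⟩ := local_main (ι := ι) (hq i) hB hΦ hNrel hN hst (hW _)
      (hstab W hW) (hY _) (hstab _ hY) hiso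
    refine ⟨T, hT1, hT2, hfac, fun hT => ?_⟩
    obtain ⟨b, hb1, hb2⟩ := hT3 hT
    refine ⟨b, fun j => ?_, hb2⟩
    have h3 := hb1 j
    have h4 := hrk j
    omega
  choose T hT1 hT2 hT3 hT4 using hkey
  have hp1 : (1 : ℝ) < p := by exact_mod_cast hp.one_lt
  have hp0 : (0 : ℝ) < p := by linarith
  have hTeq : ∀ i, T i = w * d := by
    apply sum_eq_of_le hf hT2
    have h3 := congrArg Units.val h2
    rw [Units.val_pow_eq_pow_val, Units.val_pow_eq_pow_val, Units.coe_prod, Units.coe_prod,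
      Finset.prod_congr rfl fun i _ => hT3 i] at h3
    have h4 := congrArg (fun t => ‖ι (algebraMap ℚ_[ℓ] (AlgebraicClosure ℚ_[ℓ]) t)‖ ^ 2) h3
    beta_reduce at h4
    rw [map_pow, map_pow, map_pow, map_pow, norm_pow, norm_pow, map_prod, map_prod, _root_.norm_prod,
      ← pow_mul, ← pow_mul, mul_comm (2 * n) 2, pow_mul _ 2, mul_comm (d * n) 2, ← Finset.prod_pow,
      Finset.prod_congr rfl fun i _ => hT1 i] at h4
    have h5 : ∏ i, ((p ^ f i : ℕ) : ℝ) ^ T i = (p : ℝ) ^ ∑ i, (f i : ℤ) * T i := by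
      rw [← prod_zpow_sum _ hp0.ne']
      refine Finset.prod_congr rfl fun i _ => ?_
      rw [Nat.cast_pow, ← zpow_natCast, ← zpow_mul]
    have h6 : ‖ι (algebraMap ℚ_[ℓ] (AlgebraicClosure ℚ_[ℓ])
        (∏ i, ((p ^ f i : ℕ) : ℚ_[ℓ]) ^ w))‖ = (p : ℝ) ^ (w * ∑ i, (f i : ℤ)) := by
      rw [map_prod, map_prod, _root_.norm_prod]
      have h7 : ∀ i, ‖ι (algebraMap ℚ_[ℓ] (AlgebraicClosure ℚ_[ℓ]) (((p ^ f i : ℕ) : ℚ_[ℓ]) ^ w))‖ =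
          (p : ℝ) ^ ((w : ℤ) * (f i : ℤ)) := by
        intro i
        rw [map_pow, map_natCast, map_pow, map_natCast, norm_pow, Complex.norm_natCast, Nat.cast_pow,
          mul_comm, zpow_mul, zpow_natCast, zpow_natCast]
      rw [Finset.prod_congr rfl fun i _ => h7 i, prod_zpow_sum _ hp0.ne',
        Finset.mul_sum]
    rw [h5, h6, ← zpow_natCast, ← zpow_natCast, ← zpow_mul, ← zpow_mul] at h4
    have h8 := zpow_right_injective₀ hp0 hp1.ne' h4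
    have hn0 : (2 * n : ℤ) ≠ 0 := by positivity
    apply mul_right_cancel₀ hn0
    push_cast at h8
    linear_combination h8
  obtain ⟨i, hi⟩ := hall v₀ hv₀
  have h9 := hT4 i (hTeq i)
  rw [hi] at h9
  exact h9

end Pool.Agent.Y126.BP
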