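import Pool.Agent.Y126.BP.Main

/-!
# Semisimplicity from good and bad primes
-/

set_option autoImplicit false
set_option linter.unusedSectionVars false

namespace Pool.Agent.Y126.BP

open NumberField IsDedekindDomain Polynomial Module Module.End TensorProduct Pool.Agent.Y142
open Pool.Agent.Y126.JB Pool.Agent.Y126.MU
open Pool.Agent.W401.Cheb
open Pool.Agent.W569.FM (GF)

variable {K : Type} [Field K] [NumberField K] {ℓ : ℕ} [hℓ : Fact ℓ.Prime]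
  {Γ : Type} [Group Γ] {V : Type} [AddCommGroup V] [Module ℚ_[ℓ] V] [FiniteDimensional ℚ_[ℓ] V]

/-- a unipotent similitude is an isometry -/
theorem unipotent_isometry {B : LinearMap.BilinForm ℚ_[ℓ] V} (hB : B.Nondegenerate)
    {u : V →ₗ[ℚ_[ℓ]] V} (hu : IsNilpotent (u - 1)) {c : ℚ_[ℓ]}
    (h : ∀ x y, B (u x) (u y) = c * B x y) : ∀ x y, B (u x) (u y) = B x y := by
  classical
  by_cases hV : ∀ x : V, x = 0
  · intro x y
    rw [hV (u x), hV x, map_zero, LinearMap.zero_apply, LinearMap.zero_apply]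
  push Not at hV
  obtain ⟨x₁, hx₁⟩ := hV
  -- a fixed vector
  obtain ⟨x, hx0, hx⟩ : ∃ x, x ≠ 0 ∧ u x = x := by
    have hex : ∃ k : ℕ, ((u - 1) ^ k) x₁ = 0 := by
      obtain ⟨k, hk⟩ := hu
      exact ⟨k, by rw [hk, LinearMap.zero_apply]⟩
    have h0 : Nat.find hex ≠ 0 := by
      intro h0
      have := Nat.find_spec hex
      rw [h0, pow_zero, Module.End.one_apply] at this
      exact hx₁ this
    obtain ⟨m, hm⟩ := Nat.exists_eq_succ_of_ne_zero h0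
    refine ⟨((u - 1) ^ m) x₁, Nat.find_min hex (by omega), ?_⟩
    have h2 := Nat.find_spec hex
    rw [hm, Nat.succ_eq_add_one, pow_succ', Module.End.mul_apply, LinearMap.sub_apply,
      Module.End.one_apply, sub_eq_zero] at h2
    exact h2
  have h1 : ∀ y, B x ((u - 1) y) = (c - 1) * B x y := by
    intro y
    rw [LinearMap.sub_apply, Module.End.one_apply, map_sub]
    have h2 := h x y
    rw [hx] at h2
    rw [h2]
    ring
  have h2 : ∀ (k : ℕ) y, B x (((u - 1) ^ k) y) = (c - 1) ^ k * B x y := by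
    intro k
    induction k with
    | zero => intro y; simp
    | succ k ih =>
      intro y
      rw [pow_succ', Module.End.mul_apply, h1, ih]
      ring
  obtain ⟨k, hk⟩ := hu
  obtain ⟨y, hy⟩ : ∃ y, B x y ≠ 0 := by
    by_contra hcon
    push Not at hcon
    exact hx0 (hB.1 x hcon)
  have h3 := h2 k y
  rw [hk, LinearMap.zero_apply, map_zero] at h3
  have h4 : (c - 1) ^ k = 0 := (mul_eq_zero.1 h3.symm).resolve_right hy
  have h5 : c = 1 := sub_eq_zero.1 (eq_zero_of_pow_eq_zero h4)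
  intro x y
  rw [h, h5, one_mul]

theorem locAt_of {θ : GK K →* Γ} {ρ : Γ →* (V →ₗ[ℚ_[ℓ]] V)} {χ : Γ → ℚ_[ℓ]}
    {B : LinearMap.BilinForm ℚ_[ℓ] V} (hB : B.Nondegenerate)
    (hχ : ∀ g x y, B (ρ g x) (ρ g y) = χ g * B x y) {w : ℕ}
    {ι : AlgebraicClosure ℚ_[ℓ] →+* ℂ} {v : HeightOneSpectrum (𝓞 K)} {m : ℕ → ℕ}
    (h : ∀ (q : ℕ) (σ : GK K), 1 < q → FrobQ v q σ → ∃ g : Γ, IsNilpotent (ρ g - 1) ∧
      ρ (θ σ) * ρ g = ρ g ^ q * ρ (θ σ) ∧ χ (θ σ⁻¹) = (q : ℚ_[ℓ]) ^ w ∧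
      (∀ j, finrank ℚ_[ℓ] (LinearMap.range ((ρ g - 1) ^ j)) +
        finrank ℚ_[ℓ] (LinearMap.range ((ρ g - 1) ^ (j + 2))) ≤
        2 * finrank ℚ_[ℓ] (LinearMap.range ((ρ g - 1) ^ (j + 1))) + m (j + 1)) ∧
      (Star ι q (w : ℤ) ((ρ (θ σ⁻¹)).baseChange (AlgebraicClosure ℚ_[ℓ]))
        ((ρ g - 1).baseChange (AlgebraicClosure ℚ_[ℓ])) ∨ ∀ j, m (j + 1) ≤ 1)) :
    LocAt θ ρ χ w ι v m := by
  intro q σ hq hσ
  obtain ⟨g, ⟨k, hk⟩, hrel, hfac, hrk, hor⟩ := h q σ hq hσ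
  have h1 : ρ (θ σ) * ρ (θ σ⁻¹) = 1 := by rw [← map_mul, ← map_mul, mul_inv_cancel, map_one, map_one]
  have h2 : ρ (θ σ⁻¹) * ρ (θ σ) = 1 := by rw [← map_mul, ← map_mul, inv_mul_cancel, map_one, map_one]
  have hr := lg_rel hk hrel h1 h2
  have hrange : ∀ j : ℕ, LinearMap.range ((lg ℚ_[ℓ] (ρ g - 1) k) ^ j) =
      LinearMap.range ((ρ g - 1) ^ j) := lg_range hk
  refine ⟨lg ℚ_[ℓ] (ρ g - 1) k, lg_nil hk, hr, hfac, ?_, fun U hU => lg_stable (hU g), fun j => ?_⟩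
  · rcases hor with h3 | h3
    · exact lg_star hk h3
    · have hΦ : ∀ x y, B (ρ (θ σ⁻¹) x) (ρ (θ σ⁻¹) y) = ((q : ℕ) : ℚ_[ℓ]) ^ (w : ℤ) * B x y := by
        intro x y
        rw [hχ, hfac, zpow_natCast]
      refine star_baseChange hq hB hΦ (lg_skew hk (unipotent_isometry hB ⟨k, hk⟩ (hχ g))) hr
        (lg_nil hk) fun j => ?_
      rw [hrange, hrange, hrange]
      exact (hrk j).trans (Nat.add_le_add_left (h3 j) _)
  · rw [hrange, hrange, hrange]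
    exact hrk j

/-- **Semisimplicity from good and bad primes.** -/
theorem semisimple_bad (θ : GK K →* Γ) (ρ : Γ →* (V →ₗ[ℚ_[ℓ]] V))
    (hc : ∀ (φ : Dual ℚ_[ℓ] V) (x : V), Continuous fun g => φ (ρ (θ g) x))
    (B : LinearMap.BilinForm ℚ_[ℓ] V) (hB : B.Nondegenerate) (hB₀ : B.IsRefl)
    (χ : Γ → ℚ_[ℓ]) (hχ : ∀ g x y, B (ρ g x) (ρ g y) = χ g * B x y)
    {w : ℕ} (hw : 0 < w) {S : Set (HeightOneSpectrum (𝓞 K))} (hS : S.Finite)
    (P : HeightOneSpectrum (𝓞 K) → ℤ[X])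
    (hP : ∀ v ∉ S, (P v).Monic ∧
      (∀ z : ℂ, aeval z (P v) = 0 → ‖z‖ ^ 2 = (Ideal.absNorm v.asIdeal : ℝ) ^ w) ∧
      ∀ σ : GK K, IsFrob v σ → (ρ (θ σ⁻¹)).charpoly = (P v).map (algebraMap ℤ ℚ_[ℓ]) ∧
        χ (θ σ⁻¹) = (Ideal.absNorm v.asIdeal : ℚ_[ℓ]) ^ w)
    (ι : AlgebraicClosure ℚ_[ℓ] →+* ℂ)
    (hno : ∀ d : ℕ, 0 < d → 2 * d ≤ finrank ℚ_[ℓ] V → Even (w * d * finrank ℚ K) →
      (∃ (p : ℕ) (v : Fin (finrank ℚ K) → HeightOneSpectrum (𝓞 K)), p.Prime ∧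
        Function.Injective v ∧ (∀ i, (p : 𝓞 K) ∈ (v i).asIdeal ∧ v i ∉ S) ∧
        ¬ (IsoRel ℂ ℂ (fun i => P (v i)) (p ^ w) d ∧
          IsoRel ℚ_[ℓ] (AlgebraicClosure ℚ_[ℓ]) (fun i => P (v i)) (p ^ w) d)) ∨
      ∃ p : ℕ, p.Prime ∧ ∃ m : HeightOneSpectrum (𝓞 K) → ℕ → ℕ,
        (∀ v, (p : 𝓞 K) ∈ v.asIdeal → LocAt θ ρ χ w ι v (m v)) ∧
        ∃ v, (p : 𝓞 K) ∈ v.asIdeal ∧ ¬ ∃ b : ℕ → ℕ, (∀ j, 2 * b (j + 1) ≤ m v (j + 1)) ∧
          ∑ j ∈ Finset.range (finrank ℚ_[ℓ] V + 1), j * b j = d)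
    (U : Submodule ℚ_[ℓ] V) (hU : ∀ g, U ≤ U.comap (ρ g)) :
    IsCompl U (B.orthogonal U) ∧ ∀ g, B.orthogonal U ≤ (B.orthogonal U).comap (ρ g) := by
  refine isCompl_of_no_isotropic ρ χ hB₀ hχ ?_ U hU
  intro W hW hiso
  by_contra hW0
  have hd : 0 < finrank ℚ_[ℓ] W := by
    rw [Nat.pos_iff_ne_zero]
    intro h0
    exact hW0 (Submodule.finrank_eq_zero.1 h0)
  obtain ⟨heven, hcore⟩ := isotropic_core (ρ.comp θ) hc B hB (fun g => χ (θ g))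
    (fun g x y => hχ (θ g) x y) hw hS P hP W (fun g => hW (θ g)) hiso hW0
  rcases hno (finrank ℚ_[ℓ] W) hd (two_mul_finrank_le hB hiso) heven with
    ⟨p, v, hp, hv, hpv, hnot⟩ | ⟨p, hp, m, hloc, v₀, hv₀, hb⟩
  · obtain ⟨Q, n, hn, hQ, hprod⟩ := hcore p hp v hv hpv
    have h1 : IsoRel ℚ_[ℓ] (AlgebraicClosure ℚ_[ℓ]) (fun i => P (v i)) (p ^ w)
        (finrank ℚ_[ℓ] W) := by
      have hchar : CharZero (AlgebraicClosure ℚ_[ℓ]) := charZero_of_injective_algebraMap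
        (algebraMap ℚ_[ℓ] (AlgebraicClosure ℚ_[ℓ])).injective
      refine isoRel_of_dvd (pow_ne_zero _ hp.ne_zero) (fun i => (hP _ (hpv i).2).1) (fun i => ?_) hn
        (Q := Q) (fun i => ?_) ?_
      · intro h0
        have h2 := (hP _ (hpv i).2).2.1 0 (by
          have h3 : aeval (0 : ℂ) (P (v i)) = algebraMap ℤ ℂ ((P (v i)).eval 0) := by
            rw [← map_zero (algebraMap ℤ ℂ), aeval_algebraMap_apply, coe_aeval_eq_eval]
          rw [h3, h0, map_zero])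
        rw [norm_zero, zero_pow (by norm_num)] at h2
        have h4 : (0 : ℝ) < (Ideal.absNorm (v i).asIdeal : ℝ) ^ w := by
          have : 0 < Ideal.absNorm (v i).asIdeal := by
            rw [Nat.pos_iff_ne_zero]
            intro h5
            exact (v i).ne_bot (Ideal.absNorm_eq_zero_iff.1 h5)
          positivity
        exact absurd h2 h4.ne
      · rw [Nat.cast_pow]
        exact hQ i
      · rw [Nat.cast_pow]
        exact hprod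
    exact hnot ⟨isoRel_complex h1, h1⟩
  · exact hb (bad_core θ ρ hc B hB χ hχ hw hS P hP ι W hW hiso hW0 hp m hloc v₀ hv₀)

end Pool.Agent.Y126.BP
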